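import Pool.Agent.Work.MP_6e5b56_gt.Sub

-- merged part: Pool.Agent.Work.MP_6e5b56_gt.Eta
section
/-! The one-dimensional test function and its Fourier transform. -/

set_option autoImplicit false

open MeasureTheory Set Filter Real Topology
open scoped FourierTransform

namespace Pool.Agent.Work.MP_6e5b56_gt

/-- The character `exp (i a b)`. -/
noncomputable def ch (a b : ℝ) : ℂ := Complex.exp (Complex.I * a * b)

lemma norm_ch (a b : ℝ) : ‖ch a b‖ = 1 := by
  have h1 : Complex.I * a * b = ((a * b : ℝ) : ℂ) * Complex.I := by push_cast; ring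
  rw [ch, h1, Complex.norm_exp_ofReal_mul_I]

lemma ch_comm (a b : ℝ) : ch a b = ch b a := by
  unfold ch; congr 1; ring

lemma ch_sub (a a' b : ℝ) : ch (a - a') b = ch a b * (starRingEnd ℂ) (ch a' b) := by
  unfold ch
  rw [← Complex.exp_conj, ← Complex.exp_add]
  congr 1
  simp only [map_mul, Complex.conj_I, Complex.conj_ofReal]
  push_cast; ring

lemma conj_ch (a b : ℝ) : (starRingEnd ℂ) (ch a b) = ch (-a) b := by
  unfold ch
  rw [← Complex.exp_conj]
  congr 1
  simp only [map_mul, Complex.conj_I, Complex.conj_ofReal]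
  push_cast; ring

@[fun_prop]
lemma continuous_ch {X : Type*} [TopologicalSpace X] {f g : X → ℝ} (hf : Continuous f)
    (hg : Continuous g) : Continuous fun x => ch (f x) (g x) := by
  unfold ch; fun_prop

/-- Distance to `[0,t]`. -/
noncomputable def dI (t x : ℝ) : ℝ := max (-x) 0 + max (x - t) 0

lemma continuous_dI (t : ℝ) : Continuous (dI t) := by unfold dI; fun_prop

lemma dI_left {t x : ℝ} (ht : 0 ≤ t) (hx : x ≤ 0) : dI t x = -x := by
  unfold dI; rw [max_eq_left (by linarith), max_eq_right (by linarith), add_zero]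

lemma dI_mid {t x : ℝ} (h0 : 0 ≤ x) (hx : x ≤ t) : dI t x = 0 := by
  unfold dI; rw [max_eq_right (by linarith), max_eq_right (by linarith), add_zero]

lemma dI_right {t x : ℝ} (ht : 0 ≤ t) (hx : t ≤ x) : dI t x = x - t := by
  unfold dI; rw [max_eq_right (by linarith), max_eq_left (by linarith), zero_add]

lemma ft_exp {t l : ℝ} (ht : 0 ≤ t) (hl : 0 < l) (ξ : ℝ) :
    Integrable (fun x => ch (-ξ) x * (exp (-l * dI t x) : ℝ)) ∧
    ∫ x, ch (-ξ) x * (exp (-l * dI t x) : ℝ) = 1 / (l - Complex.I * ξ) + (∫ x in (0:ℝ)..t, ch (-ξ) x)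
      + ch (-ξ) t / (l + Complex.I * ξ) := by
  set f : ℝ → ℂ := fun x => ch (-ξ) x * (exp (-l * dI t x) : ℝ) with hf
  have hc : Continuous f := by
    have := continuous_dI t
    simp only [hf]; fun_prop
  have ha : 0 < ((l : ℂ) - Complex.I * ξ).re := by simpa using hl
  have hb : (-((l : ℂ) + Complex.I * ξ)).re < 0 := by simpa using hl
  have eL : EqOn f (fun x : ℝ => Complex.exp ((l - Complex.I * ξ) * x)) (Iic 0) := by
    intro x hx
    simp only [hf, dI_left ht hx, ch]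
    push_cast
    rw [← Complex.exp_add]; congr 1; ring
  have eR : EqOn f (fun x : ℝ => Complex.exp (l * t) * Complex.exp (-(l + Complex.I * ξ) * x))
      (Ioi t) := by
    intro x hx
    simp only [hf, dI_right ht (le_of_lt hx), ch]
    push_cast
    rw [← Complex.exp_add, ← Complex.exp_add]; congr 1; ring
  have eM : EqOn f (fun x : ℝ => ch (-ξ) x) (uIcc 0 t) := by
    intro x hx
    rw [uIcc_of_le ht] at hx
    simp [hf, dI_mid hx.1 hx.2]
  have iL : IntegrableOn f (Iic 0) :=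
    (integrableOn_exp_mul_complex_Iic ha 0).congr_fun eL.symm measurableSet_Iic
  have iR : IntegrableOn f (Ioi t) :=
    IntegrableOn.congr_fun ((integrableOn_exp_mul_complex_Ioi hb t).const_mul _) eR.symm
      measurableSet_Ioi
  have iM : IntervalIntegrable f volume 0 t := hc.intervalIntegrable _ _
  have iR0 : IntegrableOn f (Ioi 0) := by
    rw [← Ioc_union_Ioi_eq_Ioi ht]
    exact IntegrableOn.union ((intervalIntegrable_iff_integrableOn_Ioc_of_le ht).1 iM) iR
  refine ⟨?_, ?_⟩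
  · rw [← integrableOn_univ, ← Iic_union_Ioi (a := (0:ℝ))]
    exact iL.union iR0
  · rw [← intervalIntegral.integral_Iic_add_Ioi iL iR0,
      ← intervalIntegral.integral_interval_add_Ioi iR0 iR,
      setIntegral_congr_fun measurableSet_Iic eL, setIntegral_congr_fun measurableSet_Ioi eR,
      intervalIntegral.integral_congr eM, integral_const_mul,
      integral_exp_mul_complex_Iic ha, integral_exp_mul_complex_Ioi hb, add_assoc]
    congr 2
    · simp
    · rw [neg_div_neg_eq, ← mul_div_assoc, ← Complex.exp_add, ch]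
      congr 2
      push_cast; ring

lemma integrable_exp_dI {t l : ℝ} (ht : 0 ≤ t) (hl : 0 < l) :
    Integrable (fun x => exp (-l * dI t x)) := by
  have := (ft_exp ht hl 0).1.norm
  simpa [norm_ch, Complex.norm_exp] using this

lemma integral_exp_dI {t l : ℝ} (ht : 0 ≤ t) (hl : 0 < l) :
    ∫ x, exp (-l * dI t x) = t + 2 / l := by
  have := (ft_exp ht hl 0).2
  simp only [ch, neg_zero, Complex.ofReal_zero, mul_zero, zero_mul, Complex.exp_zero, one_mul,
    sub_zero, add_zero, intervalIntegral.integral_const, integral_complex_ofReal] at this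
  apply Complex.ofReal_injective
  rw [this]
  push_cast
  simp
  ring

/-- The test function: `1` on `[0,t]`, `2 e^{-s} - e^{-2s}` at distance `s`. -/
noncomputable def eta (t x : ℝ) : ℝ := 2 * exp (-1 * dI t x) - exp (-2 * dI t x)

lemma continuous_eta (t : ℝ) : Continuous (eta t) := by
  have := continuous_dI t
  unfold eta; fun_prop

lemma eta_mid {t x : ℝ} (h0 : 0 ≤ x) (hx : x ≤ t) : eta t x = 1 := by
  simp [eta, dI_mid h0 hx]; norm_num

lemma integrable_eta {t : ℝ} (ht : 0 ≤ t) : Integrable (eta t) :=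
  ((integrable_exp_dI ht one_pos).const_mul 2).sub (integrable_exp_dI ht two_pos)

lemma integral_eta_sq {t : ℝ} (ht : 0 ≤ t) : ∫ x, eta t x * eta t x = t + 11 / 6 := by
  have h : ∀ x, eta t x * eta t x = 4 * exp (-2 * dI t x) - 4 * exp (-3 * dI t x)
      + exp (-4 * dI t x) := by
    intro x
    have e2 : exp (-2 * dI t x) = exp (-1 * dI t x) ^ 2 := by
      rw [← Real.exp_nat_mul]; congr 1; push_cast; ring
    have e3 : exp (-3 * dI t x) = exp (-1 * dI t x) ^ 3 := by
      rw [← Real.exp_nat_mul]; congr 1; push_cast; ring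
    have e4 : exp (-4 * dI t x) = exp (-1 * dI t x) ^ 4 := by
      rw [← Real.exp_nat_mul]; congr 1; push_cast; ring
    rw [eta, e2, e3, e4]; ring
  simp_rw [h]
  have i2 := integrable_exp_dI ht (l := 2) (by norm_num)
  have i3 := integrable_exp_dI ht (l := 3) (by norm_num)
  have i4 := integrable_exp_dI ht (l := 4) (by norm_num)
  have i23 : Integrable (fun x => 4 * exp (-2 * dI t x) - 4 * exp (-3 * dI t x)) :=
    (i2.const_mul 4).sub (i3.const_mul 4)
  rw [integral_add i23 i4,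
    integral_sub (i2.const_mul 4) (i3.const_mul 4), integral_const_mul, integral_const_mul,
    integral_exp_dI ht (by norm_num), integral_exp_dI ht (by norm_num),
    integral_exp_dI ht (by norm_num)]
  ring

/-- Fourier transform of `eta`. -/
noncomputable def E (t ξ : ℝ) : ℂ := ∫ x, ch (-ξ) x * (eta t x : ℝ)

/-- Fourier transform of the density `2 (e^{-s} - e^{-2s})`. -/
noncomputable def P (ξ : ℝ) : ℂ := 2 / ((1 + Complex.I * ξ) * (2 + Complex.I * ξ))

lemma ne_zero_add (l ξ : ℝ) (hl : 0 < l) : (l : ℂ) + Complex.I * ξ ≠ 0 := by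
  intro h
  have := congrArg Complex.re h
  simp at this
  linarith

lemma mul_E {t : ℝ} (ht : 0 ≤ t) (ξ : ℝ) :
    Complex.I * ξ * E t ξ = (starRingEnd ℂ) (P ξ) - ch (-ξ) t * P ξ := by
  have h1 := ft_exp ht one_pos ξ
  have h2 := ft_exp ht two_pos ξ
  have hE : E t ξ = 2 * (∫ x, ch (-ξ) x * (exp (-1 * dI t x) : ℝ))
      - ∫ x, ch (-ξ) x * (exp (-2 * dI t x) : ℝ) := by
    rw [← integral_const_mul, ← integral_sub (h1.1.const_mul 2) h2.1, E]
    congr 1; ext x; rw [eta]; push_cast; ring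
  have hS : Complex.I * ξ * (∫ x in (0:ℝ)..t, ch (-ξ) x) = 1 - ch (-ξ) t := by
    by_cases hξ : ξ = 0
    · simp [hξ, ch]
    · have hc : Complex.I * ((-ξ : ℝ) : ℂ) ≠ 0 :=
        mul_ne_zero Complex.I_ne_zero (by exact_mod_cast neg_ne_zero.2 hξ)
      simp only [ch]
      rw [integral_exp_mul_complex hc]
      have : (ξ : ℂ) ≠ 0 := by exact_mod_cast hξ
      push_cast
      field_simp
      simp
  rw [hE, h1.2, h2.2]
  have n1 := ne_zero_add 1 ξ one_pos
  have n2 := ne_zero_add 2 ξ two_pos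
  have n3 := ne_zero_add 1 (-ξ) one_pos
  have n4 := ne_zero_add 2 (-ξ) two_pos
  push_cast at n1 n2 n3 n4 ⊢
  rw [mul_neg, ← sub_eq_add_neg] at n3 n4
  have hP : (starRingEnd ℂ) (P ξ) = 2 / ((1 - Complex.I * ξ) * (2 - Complex.I * ξ)) := by
    simp only [P, map_div₀, map_mul, map_add, map_one, Complex.conj_I, Complex.conj_ofReal,
      map_ofNat]
    ring
  rw [hP, P]
  set S := ∫ x in (0:ℝ)..t, ch (-ξ) x
  set c := ch (-ξ) t
  set z := Complex.I * ξ
  have : z * (2 * (1 / (1 - z) + S + c / (1 + z)) - (1 / (2 - z) + S + c / (2 + z)))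
      = z * S + z * (2 / (1 - z) - 1 / (2 - z)) + z * c * (2 / (1 + z) - 1 / (2 + z)) := by ring
  rw [this, hS]
  field_simp
  ring

lemma normSq_P (ξ : ℝ) : ‖P ξ‖ ^ 2 = 4 / ((1 + ξ ^ 2) * (4 + ξ ^ 2)) := by
  rw [← Complex.normSq_eq_norm_sq, P, map_div₀, map_mul]
  simp only [Complex.normSq_apply]
  simp
  ring

lemma sq_mul_E {t : ℝ} (ht : 0 ≤ t) (ξ : ℝ) :
    ξ ^ 2 * ‖E t ξ‖ ^ 2 = 2 * ‖P ξ‖ ^ 2 - 2 * (ch (-ξ) t * P ξ ^ 2).re := by
  have h := congrArg (fun z => ‖z‖ ^ 2) (mul_E ht ξ)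
  simp only [norm_mul, Complex.norm_I, one_mul, Complex.norm_real, Real.norm_eq_abs, mul_pow,
    sq_abs] at h
  rw [h, ← Complex.normSq_eq_norm_sq, Complex.normSq_sub, Complex.normSq_conj, map_mul,
    Complex.normSq_eq_norm_sq (ch _ _), norm_ch, Complex.normSq_eq_norm_sq, ← map_mul,
    Complex.conj_re]
  have : P ξ * (ch (-ξ) t * P ξ) = ch (-ξ) t * P ξ ^ 2 := by ring
  rw [this]; ring

lemma continuous_E {t : ℝ} (ht : 0 ≤ t) : Continuous (E t) := by
  unfold E
  refine continuous_of_dominated (bound := fun x => ‖eta t x‖) ?_ ?_ (integrable_eta ht).norm ?_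
  · intro ξ
    apply Continuous.aestronglyMeasurable
    have := continuous_eta t
    fun_prop
  · intro ξ
    refine Eventually.of_forall (fun x => ?_)
    simp [norm_ch]
  · refine Eventually.of_forall (fun x => ?_)
    fun_prop

lemma norm_E_le (t ξ : ℝ) : ‖E t ξ‖ ≤ ∫ x, ‖eta t x‖ := by
  refine (norm_integral_le_integral_norm _).trans (le_of_eq ?_)
  simp [norm_ch]

lemma norm_E_le' {t : ℝ} (ht : 0 ≤ t) (ξ : ℝ) :
    ‖E t ξ‖ ≤ (2 * (∫ x, ‖eta t x‖) + 4) * (1 + ξ ^ 2)⁻¹ := by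
  set M := ∫ x, ‖eta t x‖
  have hM : 0 ≤ M := integral_nonneg (fun x => norm_nonneg _)
  have h0 : 0 < 1 + ξ ^ 2 := by positivity
  rw [← div_eq_mul_inv, le_div_iff₀ h0]
  by_cases h : ξ ^ 2 ≤ 1
  · have := norm_E_le t ξ
    linarith only [this, hM, h, norm_nonneg (E t ξ), mul_nonneg_of_nonpos_of_nonpos (Mathlib.Tactic.Linarith.sub_nonpos_of_le (sq_nonneg ξ)) (Mathlib.Tactic.Linarith.sub_nonpos_of_le this), mul_nonneg_of_nonpos_of_nonpos (Mathlib.Tactic.Linarith.sub_nonpos_of_le hM) (Mathlib.Tactic.Linarith.sub_nonpos_of_le h)]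
  · push Not at h
    have h1 := sq_mul_E ht ξ
    have h2 : -(ch (-ξ) t * P ξ ^ 2).re ≤ ‖P ξ‖ ^ 2 := by
      refine (neg_le_abs _).trans ((Complex.abs_re_le_norm _).trans (le_of_eq ?_))
      rw [norm_mul, norm_ch, one_mul, norm_pow]
    have h3 : ξ ^ 2 * ‖E t ξ‖ ^ 2 ≤ 16 / ((1 + ξ ^ 2) * (4 + ξ ^ 2)) := by
      have := normSq_P ξ
      have e : 16 / ((1 + ξ ^ 2) * (4 + ξ ^ 2)) = 4 * (4 / ((1 + ξ ^ 2) * (4 + ξ ^ 2))) := by ring
      linarith only [h1, h2, this, e]
    rw [le_div_iff₀ (by positivity)] at h3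
    have h4 : (‖E t ξ‖ * (1 + ξ ^ 2)) ^ 2 ≤ 4 ^ 2 := by
      have hE := sq_nonneg ‖E t ξ‖
      have : ‖E t ξ‖ ^ 2 * (1 + ξ ^ 2) * (1 + ξ ^ 2) ≤
          ‖E t ξ‖ ^ 2 * (1 + ξ ^ 2) * (ξ ^ 2 * (4 + ξ ^ 2)) := by
        apply mul_le_mul_of_nonneg_left _ (by positivity)
        linarith only [h, mul_nonneg_of_nonpos_of_nonpos (Mathlib.Tactic.Linarith.sub_nonpos_of_le (sq_nonneg ξ)) (Mathlib.Tactic.Linarith.sub_nonpos_of_le (sq_nonneg ξ))]
      linarith only [h3, this]
    have := (pow_le_pow_iff_left₀ (by positivity) (by norm_num) two_ne_zero).1 h4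
    linarith

lemma integrable_E {t : ℝ} (ht : 0 ≤ t) : Integrable (E t) :=
  Integrable.mono' (integrable_inv_one_add_sq.const_mul _) (continuous_E ht).aestronglyMeasurable
    (Eventually.of_forall (norm_E_le' ht))

/-- Fourier inversion for `eta`. -/
lemma inversion {t : ℝ} (ht : 0 ≤ t) (x : ℝ) :
    ∫ ξ, ch x ξ * E t ξ = ((2 * π * eta t x : ℝ) : ℂ) := by
  set f : ℝ → ℂ := fun x => (eta t x : ℝ) with hf
  have hfc : Continuous f := Complex.continuous_ofReal.comp (continuous_eta t)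
  have hfi : Integrable f := (integrable_eta ht).ofReal
  have hF : ∀ w, 𝓕 f w = E t (2 * π * w) := by
    intro w
    rw [Real.fourier_real_eq_integral_exp_smul, E]
    congr 1; ext v
    simp only [hf, ch, smul_eq_mul]
    congr 2
    push_cast; ring
  have hpi : (2 * π) ≠ 0 := by have := pi_pos; positivity
  have hFi : Integrable (𝓕 f) := by
    have : 𝓕 f = fun w => E t (2 * π * w) := funext hF
    rw [this]
    exact (integrable_E ht).comp_mul_left' hpi
  have hinv := congrFun (hfc.fourierInv_fourier_eq hfi hFi) x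
  rw [Real.fourierInv_eq_fourier_neg, Real.fourier_real_eq_integral_exp_smul] at hinv
  have h2 : ∫ v : ℝ, Complex.exp (((-2 * π * v * -x : ℝ) : ℂ) * Complex.I) • 𝓕 f v
      = ∫ v : ℝ, (fun ξ => ch x ξ * E t ξ) (2 * π * v) := by
    congr 1; ext v
    simp only [hF, ch, smul_eq_mul]
    congr 2
    push_cast; ring
  rw [h2, Measure.integral_comp_mul_left (fun ξ => ch x ξ * E t ξ), abs_of_pos (by have := pi_pos; positivity)] at hinv
  have hpi' : ((2 * π : ℝ) : ℂ) ≠ 0 := by exact_mod_cast hpi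
  rw [Complex.ofReal_mul (2 * π)]
  change _ = _ * f x
  rw [← hinv, Complex.real_smul, Complex.ofReal_inv, ← mul_assoc, mul_inv_cancel₀ hpi', one_mul]

lemma integrable_normSq_E {t : ℝ} (ht : 0 ≤ t) : Integrable (fun ξ => ‖E t ξ‖ ^ 2) := by
  refine Integrable.mono' ((integrable_E ht).norm.const_mul (∫ x, ‖eta t x‖)) ?_ ?_
  · exact ((continuous_E ht).norm.pow 2).aestronglyMeasurable
  · refine Eventually.of_forall (fun ξ => ?_)
    rw [Real.norm_eq_abs, abs_of_nonneg (by positivity), sq]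
    exact mul_le_mul_of_nonneg_right (norm_E_le t ξ) (norm_nonneg _)

lemma plancherel {t : ℝ} (ht : 0 ≤ t) : ∫ ξ, ‖E t ξ‖ ^ 2 = 2 * π * (t + 11 / 6) := by
  have h1 : ∀ ξ, ((‖E t ξ‖ ^ 2 : ℝ) : ℂ) = ∫ x, (ch x ξ * E t ξ) * (eta t x : ℝ) := by
    intro ξ
    have : (starRingEnd ℂ) (E t ξ) = ∫ x, ch x ξ * (eta t x : ℝ) := by
      rw [E, ← integral_conj]
      congr 1; ext x
      rw [map_mul, conj_ch, neg_neg, Complex.conj_ofReal, ch_comm]
    rw [← Complex.normSq_eq_norm_sq, ← Complex.mul_conj, this, ← integral_const_mul]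
    congr 1; ext x; ring
  have hint : Integrable (Function.uncurry fun ξ x => (ch x ξ * E t ξ) * (eta t x : ℝ))
      ((volume : Measure ℝ).prod volume) := by
    refine Integrable.mono ((integrable_E ht).norm.mul_prod (integrable_eta ht).norm) ?_ ?_
    · apply Continuous.aestronglyMeasurable
      have := continuous_eta t
      have := continuous_E ht
      unfold Function.uncurry
      fun_prop
    · refine Eventually.of_forall (fun q => ?_)
      simp [Function.uncurry, norm_ch]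
  apply Complex.ofReal_injective
  rw [← integral_complex_ofReal]
  simp_rw [h1]
  rw [integral_integral_swap hint]
  simp_rw [integral_mul_const, inversion ht, ← Complex.ofReal_mul, mul_assoc (2 * π)]
  rw [integral_complex_ofReal, integral_const_mul, integral_eta_sq ht]

/-- The one-dimensional weight `(1+ξ²)^{3/2}`. -/
noncomputable def W (ξ : ℝ) : ℝ := (1 + ξ ^ 2) * √(1 + ξ ^ 2)

/-- Rational majorant of `(W - 1)/ξ²`. -/
noncomputable def V (ξ : ℝ) : ℝ := ((ξ ^ 2) ^ 2 + 25 * ξ ^ 2 + 48) / (8 * (4 + ξ ^ 2))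

lemma V_pos (ξ : ℝ) : 0 < V ξ := by unfold V; positivity

lemma W_pos (ξ : ℝ) : 0 < W ξ := by unfold W; positivity

lemma continuous_W : Continuous W := by unfold W; fun_prop

lemma continuous_V : Continuous V := by
  unfold V
  exact Continuous.div (by fun_prop) (by fun_prop) (fun ξ => by positivity)

lemma continuous_P : Continuous P := by
  unfold P
  refine Continuous.div (by fun_prop) (by fun_prop) (fun ξ => ?_)
  have n1 := ne_zero_add 1 ξ one_pos
  have n2 := ne_zero_add 2 ξ two_pos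
  push_cast at n1 n2
  exact mul_ne_zero n1 n2

lemma W_le (ξ : ℝ) : W ξ ≤ 1 + ξ ^ 2 * V ξ := by
  set s := ξ ^ 2 with hs
  have h0 : 0 ≤ s := sq_nonneg ξ
  have hy : √(1 + s) ^ 2 = 1 + s := Real.sq_sqrt (by positivity)
  set y := √(1 + s)
  have h1 : y ≤ (s ^ 2 + 24 * s + 32) / (8 * (4 + s)) := by
    rw [le_div_iff₀ (by positivity)]
    linarith only [hy, sq_nonneg (4 * y - (4 + s)), sq_nonneg ((4 : ℝ) * y - ((4 : ℝ) + s))]
  have h2 : 1 + s * V ξ = (1 + s) * ((s ^ 2 + 24 * s + 32) / (8 * (4 + s))) := by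
    rw [V, ← hs]; field_simp; ring
  rw [h2, W, ← hs]
  exact mul_le_mul_of_nonneg_left h1 (by positivity)

/-- The non-oscillating part. -/
noncomputable def H (ξ : ℝ) : ℝ := V ξ * ‖P ξ‖ ^ 2

lemma H_eq (ξ : ℝ) : H ξ = ((ξ ^ 2) ^ 2 + 25 * ξ ^ 2 + 48) / (2 * (1 + ξ ^ 2) * (4 + ξ ^ 2) ^ 2) := by
  rw [H, normSq_P, V]; field_simp; ring

lemma H_nonneg (ξ : ℝ) : 0 ≤ H ξ := mul_nonneg (V_pos ξ).le (by positivity)

lemma integrable_H : Integrable H := by
  refine Integrable.mono' (integrable_inv_one_add_sq.const_mul 2) ?_ ?_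
  · exact (continuous_V.mul (continuous_P.norm.pow 2)).aestronglyMeasurable
  · refine Eventually.of_forall (fun ξ => ?_)
    rw [Real.norm_eq_abs, abs_of_nonneg (H_nonneg ξ), H_eq, ← div_eq_mul_inv,
      div_le_div_iff₀ (by positivity) (by positivity)]
    have h0 : 0 ≤ ξ ^ 2 := sq_nonneg ξ
    set s := ξ ^ 2
    have : s ^ 2 + 25 * s + 48 ≤ 4 * (4 + s) ^ 2 := by linarith only [h0, sq_nonneg s]
    linarith only [h0, mul_nonneg_of_nonpos_of_nonpos (Mathlib.Tactic.Linarith.sub_nonpos_of_le (sq_nonneg ((4 : ℝ) + s))) (Mathlib.Tactic.Linarith.sub_nonpos_of_le h0), mul_nonneg_of_nonpos_of_nonpos (Mathlib.Tactic.Linarith.sub_nonpos_of_le (sq_nonneg s)) (Mathlib.Tactic.Linarith.sub_nonpos_of_le h0)]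

lemma integral_H : ∫ ξ, H ξ = 31 * π / 24 := by
  set Φ : ℝ → ℝ := fun ξ => 4 / 3 * arctan ξ - 1 / 24 * arctan (ξ / 2) + 3 / 4 * (ξ / (4 + ξ ^ 2))
    with hΦ
  have hd : ∀ ξ, HasDerivAt Φ (H ξ) ξ := by
    intro ξ
    have h1 := hasDerivAt_arctan ξ
    have h2 : HasDerivAt (fun x : ℝ => arctan (x / 2)) (1 / (1 + (ξ / 2) ^ 2) * (1 / 2)) ξ :=
      ((hasDerivAt_id' ξ).div_const 2).arctan
    have h3 : HasDerivAt (fun x : ℝ => x / (4 + x ^ 2))
        ((1 * (4 + ξ ^ 2) - ξ * (2 * ξ)) / (4 + ξ ^ 2) ^ 2) ξ := by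
      have h4 : HasDerivAt (fun x : ℝ => 4 + x ^ 2) (2 * ξ) ξ := by
        simpa using (hasDerivAt_pow 2 ξ).const_add 4
      exact (hasDerivAt_id ξ).div h4 (by positivity)
    have := ((h1.const_mul (4 / 3)).sub (h2.const_mul (1 / 24))).add (h3.const_mul (3 / 4))
    refine HasDerivAt.congr_deriv this ?_
    rw [H_eq]; field_simp; ring
  have hrat : Tendsto (fun ξ : ℝ => ξ / (4 + ξ ^ 2)) (atTop ⊔ atBot) (𝓝 0) := by
    have hz : Tendsto (fun ξ : ℝ => |ξ|⁻¹) (atTop ⊔ atBot) (𝓝 0) := by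
      apply tendsto_inv_atTop_zero.comp
      rw [tendsto_sup]
      exact ⟨tendsto_abs_atTop_atTop, tendsto_abs_atBot_atTop⟩
    refine squeeze_zero_norm (fun ξ => ?_) hz
    by_cases h : ξ = 0
    · simp [h]
    · have hp : 0 < |ξ| := abs_pos.2 h
      rw [norm_div, Real.norm_eq_abs, Real.norm_eq_abs, abs_of_pos (by positivity : 0 < 4 + ξ ^ 2),
        ← one_div, div_le_div_iff₀ (by positivity) hp, ← sq, sq_abs]
      linarith only []
  have aT := tendsto_nhds_of_tendsto_nhdsWithin tendsto_arctan_atTop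
  have aB := tendsto_nhds_of_tendsto_nhdsWithin tendsto_arctan_atBot
  have htop : Tendsto Φ atTop (𝓝 (4 / 3 * (π / 2) - 1 / 24 * (π / 2) + 3 / 4 * 0)) :=
    ((aT.const_mul _).sub ((aT.comp (tendsto_id.atTop_div_const two_pos)).const_mul _)).add
      ((hrat.mono_left le_sup_left).const_mul _)
  have hbot : Tendsto Φ atBot (𝓝 (4 / 3 * (-(π / 2)) - 1 / 24 * (-(π / 2)) + 3 / 4 * 0)) :=
    ((aB.const_mul _).sub ((aB.comp (tendsto_id.atBot_div_const two_pos)).const_mul _)).add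
      ((hrat.mono_left le_sup_right).const_mul _)
  rw [integral_of_hasDerivAt_of_tendsto hd integrable_H hbot htop]
  ring

/-- The oscillating part. -/
noncomputable def G (ξ : ℝ) : ℂ := (V ξ : ℂ) * P ξ ^ 2

lemma norm_G (ξ : ℝ) : ‖G ξ‖ = H ξ := by
  rw [G, H, norm_mul, norm_pow, Complex.norm_real, Real.norm_eq_abs, abs_of_pos (V_pos ξ)]

lemma integrable_chG (t : ℝ) : Integrable (fun ξ => ch (-ξ) t * G ξ) := by
  refine Integrable.mono' integrable_H ?_ (Eventually.of_forall (fun ξ => ?_))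
  · apply Continuous.aestronglyMeasurable
    have := continuous_V
    have := continuous_P
    unfold G
    fun_prop
  · rw [norm_mul, norm_ch, one_mul, norm_G]

lemma tendsto_chG : Tendsto (fun t => ∫ ξ, ch (-ξ) t * G ξ) atTop (𝓝 0) := by
  have h := (Real.zero_at_infty_fourier G).mono_left atTop_le_cocompact
  have hpi : 0 < 2 * π := by have := pi_pos; positivity
  have h2 := h.comp (tendsto_id.atTop_div_const hpi)
  refine h2.congr (fun t => ?_)
  simp only [Function.comp, id]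
  rw [Real.fourier_real_eq_integral_exp_smul]
  congr 1; ext v
  simp only [ch, smul_eq_mul]
  congr 2
  have : (π : ℂ) ≠ 0 := by exact_mod_cast pi_pos.ne'
  push_cast; field_simp

lemma WE_le {t : ℝ} (ht : 0 ≤ t) (ξ : ℝ) :
    W ξ * ‖E t ξ‖ ^ 2 ≤ ‖E t ξ‖ ^ 2 + 2 * H ξ - 2 * (ch (-ξ) t * G ξ).re := by
  have h1 := mul_le_mul_of_nonneg_right (W_le ξ) (sq_nonneg ‖E t ξ‖)
  have h2 := sq_mul_E ht ξ
  have h3 : (ch (-ξ) t * G ξ).re = V ξ * (ch (-ξ) t * P ξ ^ 2).re := by
    rw [G, mul_left_comm, Complex.re_ofReal_mul]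
  rw [h3, H]
  have : (1 + ξ ^ 2 * V ξ) * ‖E t ξ‖ ^ 2 = ‖E t ξ‖ ^ 2 + V ξ * (ξ ^ 2 * ‖E t ξ‖ ^ 2) := by ring
  rw [this, h2] at h1
  linarith

lemma integrable_maj {t : ℝ} (ht : 0 ≤ t) :
    Integrable (fun ξ => ‖E t ξ‖ ^ 2 + 2 * H ξ - 2 * (ch (-ξ) t * G ξ).re) :=
  ((integrable_normSq_E ht).add (integrable_H.const_mul 2)).sub
    ((integrable_chG t).re.const_mul 2)

lemma integrable_WE {t : ℝ} (ht : 0 ≤ t) : Integrable (fun ξ => W ξ * ‖E t ξ‖ ^ 2) := by
  refine Integrable.mono' (integrable_maj ht) ?_ (Eventually.of_forall (fun ξ => ?_))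
  · exact (continuous_W.mul ((continuous_E ht).norm.pow 2)).aestronglyMeasurable
  · rw [Real.norm_eq_abs, abs_of_nonneg (mul_nonneg (W_pos ξ).le (sq_nonneg _))]
    exact WE_le ht ξ

/-- The weighted norm of the test function. -/
noncomputable def NN (t : ℝ) : ℝ := (∫ ξ, W ξ * ‖E t ξ‖ ^ 2) / (2 * π)

lemma NN_nonneg (t : ℝ) : 0 ≤ NN t := by
  have := pi_pos
  exact div_nonneg (integral_nonneg (fun ξ => mul_nonneg (W_pos ξ).le (sq_nonneg _)))
    (by positivity)

lemma NN_le : ∀ᶠ t in atTop, NN t ≤ t + 313 / 100 := by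
  have hpi := pi_pos
  have h1 : ∀ᶠ t in atTop, ‖∫ ξ, ch (-ξ) t * G ξ‖ < 1 / 100 := by
    have := tendsto_chG.norm
    rw [norm_zero] at this
    exact this.eventually (gt_mem_nhds (by norm_num))
  filter_upwards [h1, eventually_ge_atTop 0] with t h ht
  have h2 := integral_mono (integrable_WE ht) (integrable_maj ht) (WE_le ht)
  have i1 : Integrable (fun ξ => ‖E t ξ‖ ^ 2 + 2 * H ξ) :=
    (integrable_normSq_E ht).add (integrable_H.const_mul 2)
  have i2 : Integrable (fun ξ => (ch (-ξ) t * G ξ).re) := (integrable_chG t).re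
  have e2 : ∫ ξ, (ch (-ξ) t * G ξ).re = (∫ ξ, ch (-ξ) t * G ξ).re :=
    integral_re (integrable_chG t)
  rw [integral_sub i1 (i2.const_mul 2),
    integral_add (integrable_normSq_E ht) (integrable_H.const_mul 2), integral_const_mul,
    integral_const_mul, plancherel ht, integral_H, e2] at h2
  have h3 := (neg_le_abs _).trans (Complex.abs_re_le_norm (∫ ξ, ch (-ξ) t * G ξ))
  rw [NN, div_le_iff₀ (by positivity)]
  have := Real.pi_gt_three
  linarith only [h, h2, h3, this]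

end Pool.Agent.Work.MP_6e5b56_gt
end

-- merged part: Pool.Agent.Work.MP_6e5b56_gt.Upper
section
/-! The quadratic form of the planar kernel: positivity and the upper bound on rectangles. -/

set_option autoImplicit false

open MeasureTheory Set Filter Real Topology

namespace Pool.Agent.Work.MP_6e5b56_gt

variable {ι : Type*} [Fintype ι]

/-- The planar kernel on a finite family of points. -/
noncomputable def Zk (x y : ι → ℝ) (j k : ι) : ℝ := exp (-√((x j - x k) ^ 2 + (y j - y k) ^ 2))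

/-- The trigonometric sum of a weighting. -/
noncomputable def wh (x y w : ι → ℝ) (p : ℝ × ℝ) : ℂ :=
  ∑ j, (w j : ℂ) * (ch (x j) p.1 * ch (y j) p.2)

lemma continuous_wh (x y w : ι → ℝ) : Continuous (wh x y w) := by
  unfold wh; fun_prop

lemma norm_wh_le (x y w : ι → ℝ) (p : ℝ × ℝ) : ‖wh x y w p‖ ≤ ∑ j, |w j| := by
  refine (norm_sum_le _ _).trans (le_of_eq ?_)
  simp [norm_ch]

lemma integrable_whK (x y w : ι → ℝ) : Integrable (fun p => ‖wh x y w p‖ ^ 2 * K p) := by
  refine Integrable.mono' (integrable_K.const_mul ((∑ j, |w j|) ^ 2)) ?_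
    (Eventually.of_forall (fun p => ?_))
  · exact (((continuous_wh x y w).norm.pow 2).mul continuous_K).aestronglyMeasurable
  · rw [Real.norm_eq_abs, abs_of_nonneg (mul_nonneg (sq_nonneg _) (K_pos p).le)]
    exact mul_le_mul_of_nonneg_right (pow_le_pow_left₀ (norm_nonneg _) (norm_wh_le x y w p) 2)
      (K_pos p).le

lemma integrable_chK (a b : ℝ) : Integrable (fun p : ℝ × ℝ => ch a p.1 * ch b p.2 * (K p : ℂ)) := by
  refine Integrable.mono' integrable_K ?_ (Eventually.of_forall (fun p => ?_))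
  · apply Continuous.aestronglyMeasurable
    have := continuous_K
    fun_prop
  · simp [norm_ch, abs_of_pos (K_pos p)]

lemma quad_rep (x y w : ι → ℝ) :
    ∫ p, ‖wh x y w p‖ ^ 2 * K p = 2 * π * ∑ j, ∑ k, w j * w k * Zk x y j k := by
  have h1 : ∀ p : ℝ × ℝ, ((‖wh x y w p‖ ^ 2 * K p : ℝ) : ℂ) = ∑ j, ∑ k,
      ((w j * w k : ℝ) : ℂ) * (ch (x j - x k) p.1 * ch (y j - y k) p.2 * (K p : ℂ)) := by
    intro p
    rw [Complex.ofReal_mul, ← Complex.normSq_eq_norm_sq, ← Complex.mul_conj, wh, map_sum,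
      Finset.sum_mul_sum, Finset.sum_mul]
    refine Finset.sum_congr rfl (fun j _ => ?_)
    rw [Finset.sum_mul]
    refine Finset.sum_congr rfl (fun k _ => ?_)
    rw [ch_sub, ch_sub, map_mul, map_mul, Complex.conj_ofReal]
    push_cast; ring
  apply Complex.ofReal_injective
  rw [← integral_complex_ofReal]
  simp_rw [h1]
  rw [integral_finsetSum _ (fun j _ => integrable_finsetSum _
    (fun k _ => (integrable_chK _ _).const_mul _)), Finset.mul_sum, Complex.ofReal_sum]
  refine Finset.sum_congr rfl (fun j _ => ?_)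
  rw [integral_finsetSum _ (fun k _ => (integrable_chK _ _).const_mul _), Finset.mul_sum,
    Complex.ofReal_sum]
  refine Finset.sum_congr rfl (fun k _ => ?_)
  rw [integral_const_mul]
  simp only [ch]
  rw [kernel_rep, Zk]
  push_cast; ring

lemma quad_nonneg (x y w : ι → ℝ) : 0 ≤ ∑ j, ∑ k, w j * w k * Zk x y j k := by
  have h : 0 ≤ ∫ p, ‖wh x y w p‖ ^ 2 * K p :=
    integral_nonneg (fun p => mul_nonneg (sq_nonneg _) (K_pos p).le)
  rw [quad_rep] at h
  have := pi_pos
  exact nonneg_of_mul_nonneg_right h (by positivity) |> fun h => h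

lemma ch_inj {a b : ℝ} (h : ∀ ξ, ch a ξ = ch b ξ) : a = b := by
  by_contra hab
  have hd : a - b ≠ 0 := sub_ne_zero.2 hab
  have h1 := ch_sub a b (π / (a - b))
  rw [h, Complex.mul_conj, Complex.normSq_eq_norm_sq, norm_ch, ch] at h1
  have : Complex.I * ((a - b : ℝ) : ℂ) * ((π / (a - b) : ℝ) : ℂ) = π * Complex.I := by
    have : ((a - b : ℝ) : ℂ) ≠ 0 := by exact_mod_cast hd
    rw [Complex.ofReal_div]
    field_simp
  rw [this, Complex.exp_pi_mul_I] at h1
  norm_num at h1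

/-- The character of `ℝ²` attached to a point. -/
noncomputable def chHom (a b : ℝ) : Multiplicative (ℝ × ℝ) →* ℂ where
  toFun p := ch a (Multiplicative.toAdd p).1 * ch b (Multiplicative.toAdd p).2
  map_one' := by simp [ch]
  map_mul' p q := by
    simp only [ch, toAdd_mul, Prod.fst_add, Prod.snd_add, ← Complex.exp_add]
    congr 1
    push_cast; ring

lemma quad_eq_zero (x y w : ι → ℝ) (hinj : ∀ j k, x j = x k → y j = y k → j = k)
    (h0 : ∑ j, ∑ k, w j * w k * Zk x y j k = 0) : w = 0 := by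
  have h := quad_rep x y w
  have hc : Continuous (fun p => ‖wh x y w p‖ ^ 2 * K p) :=
    ((continuous_wh x y w).norm.pow 2).mul continuous_K
  rw [h0, mul_zero, integral_eq_zero_iff_of_nonneg
    (fun p => mul_nonneg (sq_nonneg _) (K_pos p).le) (integrable_whK x y w),
    Continuous.ae_eq_iff_eq volume hc continuous_zero] at h
  have hw : ∀ p, wh x y w p = 0 := by
    intro p
    have := congrFun h p
    simp only [Pi.zero_apply, mul_eq_zero, (K_pos p).ne', or_false] at this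
    simpa using this
  have hli : LinearIndependent ℂ
      (fun j => (chHom (x j) (y j) : Multiplicative (ℝ × ℝ) → ℂ)) := by
    refine (linearIndependent_monoidHom (Multiplicative (ℝ × ℝ)) ℂ).comp
      (fun j => chHom (x j) (y j)) ?_
    intro j k hjk
    apply hinj
    · apply ch_inj
      intro ξ
      have := DFunLike.congr_fun hjk (Multiplicative.ofAdd (ξ, 0))
      simpa [chHom, ch] using this
    · apply ch_inj
      intro ξ
      have := DFunLike.congr_fun hjk (Multiplicative.ofAdd (0, ξ))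
      simpa [chHom, ch] using this
  rw [Fintype.linearIndependent_iff] at hli
  have := hli (fun j => (w j : ℂ)) (by
    ext p
    have := hw (Multiplicative.toAdd p)
    simpa [wh, chHom] using this)
  ext j
  exact_mod_cast this j

lemma one_le_KWW (p : ℝ × ℝ) : 1 ≤ K p * (W p.1 * W p.2) := by
  have h1 : 1 + p.1 ^ 2 + p.2 ^ 2 ≤ (1 + p.1 ^ 2) * (1 + p.2 ^ 2) := by
    linarith only [mul_nonneg (sq_nonneg p.1) (sq_nonneg p.2), sq_nonneg p.1, sq_nonneg p.2]
  have h2 : √(1 + p.1 ^ 2 + p.2 ^ 2) ≤ √(1 + p.1 ^ 2) * √(1 + p.2 ^ 2) := by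
    rw [← Real.sqrt_mul (by positivity)]
    exact Real.sqrt_le_sqrt h1
  rw [K, one_div, ← div_eq_inv_mul, one_le_div (by positivity), W, W]
  calc _ ≤ ((1 + p.1 ^ 2) * (1 + p.2 ^ 2)) * (√(1 + p.1 ^ 2) * √(1 + p.2 ^ 2)) :=
        mul_le_mul h1 h2 (by positivity) (by positivity)
    _ = _ := by ring

lemma key_upper {a b : ℝ} (ha : 0 ≤ a) (hb : 0 ≤ b) (x y w : ι → ℝ)
    (hx : ∀ j, 0 ≤ x j ∧ x j ≤ a) (hy : ∀ j, 0 ≤ y j ∧ y j ≤ b) :
    2 * ∑ j, w j - ∑ j, ∑ k, w j * w k * Zk x y j k ≤ NN a * NN b / (2 * π) := by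
  have hpi := pi_pos
  have ich : ∀ {t : ℝ}, 0 ≤ t → ∀ c : ℝ, Integrable (fun ξ => ch c ξ * E t ξ) := by
    intro t ht c
    refine Integrable.mono' (integrable_E ht).norm ?_ (Eventually.of_forall (fun ξ => ?_))
    · apply Continuous.aestronglyMeasurable
      have := continuous_E ht
      fun_prop
    · simp [norm_ch]
  have hsum : ∀ p : ℝ × ℝ, wh x y w p * (E a p.1 * E b p.2)
      = ∑ j, (w j : ℂ) * ((ch (x j) p.1 * E a p.1) * (ch (y j) p.2 * E b p.2)) := by
    intro p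
    rw [wh, Finset.sum_mul]
    refine Finset.sum_congr rfl (fun j _ => by ring)
  have hlin : ∫ p : ℝ × ℝ, wh x y w p * (E a p.1 * E b p.2)
      = ((4 * π ^ 2 * ∑ j, w j : ℝ) : ℂ) := by
    simp_rw [hsum]
    rw [Measure.volume_eq_prod, integral_finsetSum _
      (fun j _ => ((ich ha (x j)).mul_prod (ich hb (y j))).const_mul _), Finset.mul_sum,
      Complex.ofReal_sum]
    refine Finset.sum_congr rfl (fun j _ => ?_)
    rw [integral_const_mul, integral_prod_mul (fun ξ => ch (x j) ξ * E a ξ)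
      (fun ξ => ch (y j) ξ * E b ξ), inversion ha, inversion hb, eta_mid (hx j).1 (hx j).2,
      eta_mid (hy j).1 (hy j).2]
    push_cast; ring
  have iW : Integrable (fun p : ℝ × ℝ => (W p.1 * ‖E a p.1‖ ^ 2) * (W p.2 * ‖E b p.2‖ ^ 2)) :=
    (integrable_WE ha).mul_prod (integrable_WE hb)
  have hle : ‖∫ p : ℝ × ℝ, wh x y w p * (E a p.1 * E b p.2)‖ ≤
      ∫ p : ℝ × ℝ, (π * (‖wh x y w p‖ ^ 2 * K p)
        + 1 / (4 * π) * ((W p.1 * ‖E a p.1‖ ^ 2) * (W p.2 * ‖E b p.2‖ ^ 2))) := by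
    refine norm_integral_le_of_norm_le (((integrable_whK x y w).const_mul _).add (iW.const_mul _))
      (Eventually.of_forall (fun p => ?_))
    rw [norm_mul, norm_mul]
    set u := ‖wh x y w p‖
    set v := ‖E a p.1‖ * ‖E b p.2‖ with hv
    have hK := K_pos p
    have h1 := one_le_KWW p
    have e : (W p.1 * ‖E a p.1‖ ^ 2) * (W p.2 * ‖E b p.2‖ ^ 2) = (W p.1 * W p.2) * v ^ 2 := by
      rw [hv]; ring
    rw [e]
    set ww := W p.1 * W p.2
    set k := K p
    have h2 : v ^ 2 ≤ k * ww * v ^ 2 := by linarith only [h1, sq_nonneg v, mul_nonneg_of_nonpos_of_nonpos (Mathlib.Tactic.Linarith.sub_nonpos_of_le (sq_nonneg v)) (Mathlib.Tactic.Linarith.sub_nonpos_of_le h1)]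
    have h3 : 4 * π * k * (u * v) ≤ 4 * π * k * (π * (u ^ 2 * k) + 1 / (4 * π) * (ww * v ^ 2)) := by
      have : 4 * π * k * (π * (u ^ 2 * k) + 1 / (4 * π) * (ww * v ^ 2))
          = (2 * π * k * u) ^ 2 + k * ww * v ^ 2 := by field_simp; ring
      rw [this]
      linarith only [h2, sq_nonneg (2 * π * k * u - v), sq_nonneg ((2 : ℝ) * π * k * u - v)]
    exact le_of_mul_le_mul_left h3 (by positivity)
  rw [hlin, integral_add ((integrable_whK x y w).const_mul _) (iW.const_mul _),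
    integral_const_mul, integral_const_mul, quad_rep, Measure.volume_eq_prod,
    integral_prod_mul (fun ξ => W ξ * ‖E a ξ‖ ^ 2) (fun ξ => W ξ * ‖E b ξ‖ ^ 2),
    Complex.norm_real] at hle
  have h4 := (le_abs_self _).trans hle
  have ea : ∫ ξ, W ξ * ‖E a ξ‖ ^ 2 = 2 * π * NN a := by rw [NN]; field_simp
  have eb : ∫ ξ, W ξ * ‖E b ξ‖ ^ 2 = 2 * π * NN b := by rw [NN]; field_simp
  rw [ea, eb] at h4
  set Q := ∑ j, ∑ k, w j * w k * Zk x y j k
  set S := ∑ j, w j
  have h5 : 1 / (4 * π) * (2 * π * NN a * (2 * π * NN b)) = 2 * π ^ 2 * (NN a * NN b / (2 * π)) := by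
    field_simp; ring
  rw [h5] at h4
  have h6 : 2 * π ^ 2 * (2 * S - Q) ≤ 2 * π ^ 2 * (NN a * NN b / (2 * π)) := by linarith only [h4]
  exact le_of_mul_le_mul_left h6 (by positivity)

end Pool.Agent.Work.MP_6e5b56_gt
end

-- merged part: Pool.Agent.Work.MP_6e5b56_gt.Lower
section
/-! Matrix facts and lattice sums. -/

set_option autoImplicit false

open MeasureTheory Set Filter Real Topology

namespace Pool.Agent.Work.MP_6e5b56_gt

section MatrixFacts
variable {ι : Type*} [Fintype ι] [DecidableEq ι]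

omit [DecidableEq ι] in
lemma quad_eq_dot (Z : Matrix ι ι ℝ) (v w : ι → ℝ) :
    ∑ j, ∑ k, v j * w k * Z j k = ∑ j, v j * (Z.mulVec w) j := by
  refine Finset.sum_congr rfl (fun j _ => ?_)
  rw [Matrix.mulVec, dotProduct, Finset.mul_sum]
  refine Finset.sum_congr rfl (fun k _ => by ring)

lemma sum_inv_eq (Z : Matrix ι ι ℝ) :
    ∑ j, ∑ k, Z⁻¹ j k = ∑ j, (Z⁻¹.mulVec (fun _ => 1)) j := by
  simp [Matrix.mulVec, dotProduct]

lemma sum_inv_le (Z : Matrix ι ι ℝ) {U : ℝ} (hU : 0 ≤ U)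
    (h : ∀ w : ι → ℝ, 2 * ∑ j, w j - ∑ j, ∑ k, w j * w k * Z j k ≤ U) :
    ∑ j, ∑ k, Z⁻¹ j k ≤ U := by
  by_cases hd : IsUnit Z.det
  · have h1 := h (Z⁻¹.mulVec (fun _ => 1))
    rw [quad_eq_dot, Matrix.mulVec_mulVec, Matrix.mul_nonsing_inv _ hd, Matrix.one_mulVec] at h1
    rw [sum_inv_eq]
    simp only [mul_one] at h1
    linarith only [h1]
  · rw [Matrix.nonsing_inv_apply_not_isUnit _ hd]
    simpa using hU

lemma le_sum_inv (Z : Matrix ι ι ℝ) (hs : ∀ j k, Z j k = Z k j)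
    (hpos : ∀ w : ι → ℝ, 0 ≤ ∑ j, ∑ k, w j * w k * Z j k)
    (hdef : ∀ w : ι → ℝ, ∑ j, ∑ k, w j * w k * Z j k = 0 → w = 0) (v : ι → ℝ) :
    2 * ∑ j, v j - ∑ j, ∑ k, v j * v k * Z j k ≤ ∑ j, ∑ k, Z⁻¹ j k := by
  have hd : IsUnit Z.det := by
    rw [isUnit_iff_ne_zero]
    intro h0
    obtain ⟨w, hw, hw0⟩ := Matrix.exists_mulVec_eq_zero_iff.2 h0
    apply hw
    apply hdef
    rw [quad_eq_dot, hw0]
    simp
  set w := Z⁻¹.mulVec (fun _ => 1) with hw
  have hZw : Z.mulVec w = fun _ => 1 := by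
    rw [hw, Matrix.mulVec_mulVec, Matrix.mul_nonsing_inv _ hd, Matrix.one_mulVec]
  have h1 := hpos (v - w)
  have e1 : ∑ j, ∑ k, v j * w k * Z j k = ∑ j, v j := by rw [quad_eq_dot, hZw]; simp
  have e2 : ∑ j, ∑ k, w j * w k * Z j k = ∑ j, w j := by rw [quad_eq_dot, hZw]; simp
  have e3 : ∑ j, ∑ k, w j * v k * Z j k = ∑ j, v j := by
    rw [Finset.sum_comm, ← e1]
    refine Finset.sum_congr rfl (fun j _ => Finset.sum_congr rfl (fun k _ => ?_))
    rw [hs k j]; ring
  have e4 : ∑ j, ∑ k, (v - w) j * (v - w) k * Z j k = ∑ j, ∑ k, v j * v k * Z j k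
      - ∑ j, ∑ k, v j * w k * Z j k - ∑ j, ∑ k, w j * v k * Z j k
      + ∑ j, ∑ k, w j * w k * Z j k := by
    simp only [← Finset.sum_sub_distrib, ← Finset.sum_add_distrib]
    refine Finset.sum_congr rfl (fun j _ => Finset.sum_congr rfl (fun k _ => ?_))
    simp only [Pi.sub_apply]; ring
  rw [e4, e1, e2, e3] at h1
  rw [sum_inv_eq, ← hw]
  linarith

lemma card_div_le_sum_inv (Z : Matrix ι ι ℝ) (hs : ∀ j k, Z j k = Z k j)
    (hpos : ∀ w : ι → ℝ, 0 ≤ ∑ j, ∑ k, w j * w k * Z j k)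
    (hdef : ∀ w : ι → ℝ, ∑ j, ∑ k, w j * w k * Z j k = 0 → w = 0) {M : ℝ} (hM : 0 < M)
    (hrow : ∀ j, ∑ k, Z j k ≤ M) :
    (Fintype.card ι : ℝ) / M ≤ ∑ j, ∑ k, Z⁻¹ j k := by
  refine le_trans ?_ (le_sum_inv Z hs hpos hdef (fun _ => 1 / M))
  have h1 : ∑ j, ∑ k, 1 / M * (1 / M) * Z j k ≤ ∑ _j : ι, 1 / M := by
    refine Finset.sum_le_sum (fun j _ => ?_)
    rw [← Finset.mul_sum]
    calc _ ≤ 1 / M * (1 / M) * M := mul_le_mul_of_nonneg_left (hrow j) (by positivity)
      _ = 1 / M := by field_simp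
  have h2 : ∑ _j : ι, 1 / M = (Fintype.card ι : ℝ) / M := by
    simp [div_eq_mul_inv]
  linarith only [h1, h2]

end MatrixFacts

lemma sum_succ_le {f : ℝ → ℝ} (hf : AntitoneOn f (Ici 0)) (h0 : ∀ x, 0 ≤ f x)
    (hi : IntegrableOn f (Ioi 0)) {δ : ℝ} (hδ : 0 < δ) (n : ℕ) :
    ∑ k ∈ Finset.range n, f (δ * (k + 1)) ≤ δ⁻¹ * ∫ x in Ioi (0:ℝ), f x := by
  have h1 : AntitoneOn (fun x => f (δ * x)) (Icc 0 (0 + (n:ℝ))) := by
    intro a ha b hb hab
    exact hf (mul_nonneg hδ.le ha.1) (mul_nonneg hδ.le hb.1) (mul_le_mul_of_nonneg_left hab hδ.le)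
  have h2 := h1.sum_le_integral
  simp only [zero_add, Nat.cast_add, Nat.cast_one] at h2
  refine h2.trans ?_
  rw [intervalIntegral.integral_comp_mul_left _ hδ.ne', smul_eq_mul, mul_zero,
    intervalIntegral.integral_of_le (by positivity)]
  refine mul_le_mul_of_nonneg_left ?_ (by positivity)
  exact setIntegral_mono_set hi (Eventually.of_forall h0) (Ioc_subset_Ioi_self).eventuallyLE

lemma sum_abs_le {f : ℝ → ℝ} (hf : AntitoneOn f (Ici 0)) (h0 : ∀ x, 0 ≤ f x)
    (hi : IntegrableOn f (Ioi 0)) {δ : ℝ} (hδ : 0 < δ) {N j : ℕ} (hj : j < N) :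
    ∑ k ∈ Finset.range N, f |δ * j - δ * k| ≤ f 0 + 2 * (δ⁻¹ * ∫ x in Ioi (0:ℝ), f x) := by
  obtain ⟨m, rfl⟩ : ∃ m, N = j + 1 + m := ⟨N - (j + 1), by omega⟩
  rw [Finset.sum_range_add, Finset.sum_range_succ, ← Finset.sum_range_reflect]
  have e1 : ∑ k ∈ Finset.range j, f |δ * j - δ * ((j - 1 - k : ℕ) : ℝ)|
      = ∑ k ∈ Finset.range j, f (δ * (k + 1)) := by
    refine Finset.sum_congr rfl (fun k hk => ?_)
    have hk' := Finset.mem_range.1 hk
    have : ((j - 1 - k : ℕ) : ℝ) = j - 1 - k := by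
      rw [Nat.cast_sub (by omega), Nat.cast_sub (by omega)]; simp
    rw [this, show δ * j - δ * (j - 1 - k) = δ * (k + 1) by ring, abs_of_pos (by positivity)]
  have e2 : ∑ k ∈ Finset.range m, f |δ * j - δ * ((j + 1 + k : ℕ) : ℝ)|
      = ∑ k ∈ Finset.range m, f (δ * (k + 1)) := by
    refine Finset.sum_congr rfl (fun k _ => ?_)
    push_cast
    rw [show δ * j - δ * (j + 1 + k) = -(δ * (k + 1)) by ring, abs_neg, abs_of_pos (by positivity)]
  rw [e1, e2, sub_self, abs_zero]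
  have := sum_succ_le hf h0 hi hδ j
  have := sum_succ_le hf h0 hi hδ m
  linarith

lemma sum_exp_le {δ : ℝ} (hδ : 0 < δ) {N j : ℕ} (hj : j < N) :
    ∑ k ∈ Finset.range N, exp (-|δ * j - δ * k|) ≤ 1 + 2 / δ := by
  have h := sum_abs_le (f := fun x => exp (-x)) (fun a _ b _ hab => by simpa using hab)
    (fun x => (exp_pos _).le) (integrableOn_exp_neg_Ioi 0) hδ hj
  rw [integral_exp_neg_Ioi_zero] at h
  simpa [div_eq_mul_inv] using h

lemma sum_gauss_le {δ v : ℝ} (hδ : 0 < δ) (hv : 0 < v) {N j : ℕ} (hj : j < N) :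
    ∑ k ∈ Finset.range N, exp (-((δ * j - δ * k) ^ 2 / (2 * v ^ 2))) ≤ 1 + √(2 * π) * v / δ := by
  have hb : 0 < 1 / (2 * v ^ 2) := by positivity
  have h := sum_abs_le (f := fun x => exp (-(1 / (2 * v ^ 2)) * x ^ 2))
    (fun a ha b _ hab => by
      apply exp_le_exp.2
      have : a ^ 2 ≤ b ^ 2 := pow_le_pow_left₀ ha hab 2
      linarith only [hb, this, mul_nonneg_of_nonpos_of_nonpos (le_of_lt (Mathlib.Tactic.Linarith.sub_neg_of_lt hb)) (Mathlib.Tactic.Linarith.sub_nonpos_of_le this)])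
    (fun x => (exp_pos _).le) (integrable_exp_neg_mul_sq hb).integrableOn hδ hj
  rw [integral_gaussian_Ioi] at h
  have e : π / (1 / (2 * v ^ 2)) = (2 * π) * v ^ 2 := by field_simp
  rw [e, Real.sqrt_mul (by have := pi_pos; positivity), Real.sqrt_sq hv.le] at h
  simp only [sq_abs] at h
  convert h using 1
  · refine Finset.sum_congr rfl (fun k _ => ?_)
    congr 1; ring
  · simp; field_simp

lemma sum_plane_le {δ ε : ℝ} (hδ : 0 < δ) (hε : 0 < ε) {N i j : ℕ} (hi : i < N) (hj : j < N) :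
    ∑ k ∈ Finset.range N, ∑ l ∈ Finset.range N,
      exp (-√((δ * i - δ * k) ^ 2 + (ε * j - ε * l) ^ 2))
      ≤ (1 + √(2 * π) / δ) * (1 + √(2 * π) / ε) := by
  set c := √(2 * π) with hc
  have hc0 : 0 < c := by have := pi_pos; positivity
  have ig : IntegrableOn (fun v : ℝ => exp (-(1 / 2) * v ^ 2)) (Ioi 0) :=
    (integrable_exp_neg_mul_sq (by norm_num)).integrableOn
  have ig2 : IntegrableOn (fun v : ℝ => v ^ 2 * exp (-(1 / 2) * v ^ 2)) (Ioi 0) := by
    have := integrableOn_rpow_mul_exp_neg_mul_sq (b := 1 / 2) (by norm_num) (s := 2) (by norm_num)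
    simpa only [Real.rpow_two] using this
  have vg : ∫ v in Ioi (0:ℝ), exp (-(1 / 2) * v ^ 2) = c / 2 := by
    rw [integral_gaussian_Ioi, hc]; congr 2; ring
  have vg2 : ∫ v in Ioi (0:ℝ), v ^ 2 * exp (-(1 / 2) * v ^ 2) = c / 2 := by
    rw [integral_sq_gauss one_pos]; simp [hc]
  have iterm : ∀ s : ℝ, 0 ≤ s → IntegrableOn
      (fun v : ℝ => exp (-(1 / 2) * v ^ 2) * exp (-(s / (2 * v ^ 2)))) (Ioi 0) := by
    intro s hs
    refine Integrable.mono ig ?_ (Eventually.of_forall (fun v => ?_))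
    · apply Measurable.aestronglyMeasurable; fun_prop
    · rw [norm_mul]
      refine mul_le_of_le_one_right (norm_nonneg _) ?_
      rw [Real.norm_eq_abs, abs_of_pos (exp_pos _), exp_le_one_iff, neg_nonpos]
      positivity
  have hterm : ∀ s : ℝ, 0 ≤ s → c / 2 * exp (-√s)
      = ∫ v in Ioi (0:ℝ), exp (-(1 / 2) * v ^ 2) * exp (-(s / (2 * v ^ 2))) := by
    intro s hs
    rw [← subord (Real.sqrt_nonneg s), Real.sq_sqrt hs]
  refine le_of_mul_le_mul_left ?_ (half_pos hc0)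
  simp_rw [Finset.mul_sum]
  have hnn : ∀ k l : ℕ, 0 ≤ (δ * i - δ * k) ^ 2 + (ε * j - ε * l) ^ 2 := fun k l => by positivity
  simp_rw [fun k l => hterm _ (hnn k l)]
  rw [← Finset.sum_congr rfl (fun k _ => integral_finsetSum _ (fun l _ => iterm _ (hnn k l))),
    ← integral_finsetSum _ (fun k _ => integrable_finsetSum _ (fun l _ => iterm _ (hnn k l)))]
  set α := 1 + c * (1 / δ + 1 / ε) / 2
  set β := c * (1 / δ + 1 / ε) / 2 + c ^ 2 / (δ * ε)
  have hR : c / 2 * ((1 + c / δ) * (1 + c / ε)) = ∫ v in Ioi (0:ℝ),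
      (α * exp (-(1 / 2) * v ^ 2) + β * (v ^ 2 * exp (-(1 / 2) * v ^ 2))) := by
    rw [integral_add (ig.const_mul _) (ig2.const_mul _), integral_const_mul, integral_const_mul,
      vg, vg2]
    simp only [α, β]
    field_simp
    ring
  rw [hR]
  refine setIntegral_mono_on
    (integrable_finsetSum _ (fun k _ => integrable_finsetSum _ (fun l _ => iterm _ (hnn k l))))
    ((ig.const_mul _).add (ig2.const_mul _)) measurableSet_Ioi (fun v hv => ?_)
  have hv' : (0:ℝ) < v := hv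
  have hsplit : ∑ k ∈ Finset.range N, ∑ l ∈ Finset.range N, exp (-(1 / 2) * v ^ 2) *
      exp (-(((δ * i - δ * k) ^ 2 + (ε * j - ε * l) ^ 2) / (2 * v ^ 2)))
      = exp (-(1 / 2) * v ^ 2) *
        ((∑ k ∈ Finset.range N, exp (-((δ * i - δ * k) ^ 2 / (2 * v ^ 2)))) *
          ∑ l ∈ Finset.range N, exp (-((ε * j - ε * l) ^ 2 / (2 * v ^ 2)))) := by
    rw [Finset.sum_mul_sum, Finset.mul_sum]
    refine Finset.sum_congr rfl (fun k _ => ?_)
    rw [Finset.mul_sum]
    refine Finset.sum_congr rfl (fun l _ => ?_)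
    rw [← exp_add (-((δ * i - δ * k) ^ 2 / (2 * v ^ 2)))]
    congr 2; ring
  rw [hsplit]
  have h1 := sum_gauss_le hδ hv' hi
  have h2 := sum_gauss_le hε hv' hj
  rw [← hc] at h1 h2
  have h3 := mul_le_mul h1 h2 (Finset.sum_nonneg (fun _ _ => (exp_pos _).le)) (by positivity)
  have h4 : (1 + c * v / δ) * (1 + c * v / ε) ≤ α + β * v ^ 2 := by
    have h5 : 0 ≤ c * (1 / δ + 1 / ε) / 2 * (v - 1) ^ 2 := by positivity
    have : α + β * v ^ 2 - (1 + c * v / δ) * (1 + c * v / ε)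
        = c * (1 / δ + 1 / ε) / 2 * (v - 1) ^ 2 := by
      simp only [α, β]; field_simp; ring
    linarith only [h5, this]
  calc _ ≤ exp (-(1 / 2) * v ^ 2) * (α + β * v ^ 2) :=
        mul_le_mul_of_nonneg_left (h3.trans h4) (exp_pos _).le
    _ = _ := by ring

end Pool.Agent.Work.MP_6e5b56_gt
end

-- merged part: Pool.Agent.Work.MP_6e5b56_gt.Mag
section
/-! Magnitude bounds for rectangles and segments, and the failure of asymptotic
inclusion-exclusion in the plane. -/

set_option autoImplicit false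

open Classical
open MeasureTheory Set Filter Real Topology Pointwise

namespace Pool.Agent.Work.MP_6e5b56_gt

/-- The Euclidean plane. -/
abbrev Pl := EuclideanSpace ℝ (Fin 2)

/-- Magnitude of a finite set. -/
noncomputable def magF (F : Finset Pl) : ℝ :=
  ∑ i : ↥F, ∑ j : ↥F, (Matrix.of (fun x y : ↥F => Real.exp (-dist x.1 y.1)))⁻¹ i j

/-- Magnitude of a set. -/
noncomputable def mag (S : Set Pl) : ℝ := ⨆ F : Finset Pl, ⨆ (_ : (↑F : Set Pl) ⊆ S), magF F

/-- The rectangle `[a,b] × [0,d]`. -/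
def Rect (a b d : ℝ) : Set Pl := {p | a ≤ p 0 ∧ p 0 ≤ b ∧ 0 ≤ p 1 ∧ p 1 ≤ d}

lemma dist_pl (p q : Pl) : dist p q = √((p 0 - q 0) ^ 2 + (p 1 - q 1) ^ 2) := by
  rw [EuclideanSpace.dist_eq, Fin.sum_univ_two, Real.dist_eq, Real.dist_eq, sq_abs, sq_abs]

lemma convex_Rect (a b d : ℝ) : Convex ℝ (Rect a b d) := by
  intro x hx y hy s t hs ht hst
  obtain ⟨h1, h2, h3, h4⟩ := hx
  obtain ⟨k1, k2, k3, k4⟩ := hy
  have e : ∀ i, (s • x + t • y) i = s * x i + t * y i := fun i => by simp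
  have ea : ∀ c : ℝ, c = s * c + t * c := fun c => by rw [← add_mul, hst, one_mul]
  refine ⟨?_, ?_, ?_, ?_⟩ <;> rw [e]
  · rw [ea a]; gcongr
  · rw [ea b]; gcongr
  · positivity
  · rw [ea d]; gcongr

lemma isCompact_Rect (a b d : ℝ) : IsCompact (Rect a b d) := by
  apply Metric.isCompact_of_isClosed_isBounded
  · have c0 : Continuous fun p : Pl => p 0 := by fun_prop
    have c1 : Continuous fun p : Pl => p 1 := by fun_prop
    exact (isClosed_le continuous_const c0).inter ((isClosed_le c0 continuous_const).inter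
      ((isClosed_le continuous_const c1).inter (isClosed_le c1 continuous_const)))
  · rw [isBounded_iff_forall_norm_le]
    refine ⟨|a| + |b| + |d|, fun p ⟨h1, h2, h3, h4⟩ => ?_⟩
    rw [← dist_zero_right, dist_pl]
    have a0 : |p 0| ≤ |a| + |b| := abs_le.2
      ⟨by linarith only [h1, neg_abs_le a, abs_nonneg b], by linarith [le_abs_self b, abs_nonneg a]⟩
    have a1 : |p 1| ≤ |d| := abs_le.2 ⟨by linarith [abs_nonneg d], by linarith [le_abs_self d]⟩
    apply Real.sqrt_le_iff.2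
    refine ⟨by positivity, ?_⟩
    simp only [PiLp.zero_apply, sub_zero]
    rw [← sq_abs (p 0), ← sq_abs (p 1)]
    linarith only [a0, a1, abs_nonneg (p 0), abs_nonneg (p 1), abs_nonneg a, abs_nonneg b, abs_nonneg d, mul_nonneg_of_nonpos_of_nonpos (Mathlib.Tactic.Linarith.sub_nonpos_of_le a0) (Mathlib.Tactic.Linarith.sub_nonpos_of_le a0), mul_nonneg_of_nonpos_of_nonpos (Mathlib.Tactic.Linarith.sub_nonpos_of_le a0) (Mathlib.Tactic.Linarith.sub_nonpos_of_le a1), mul_nonneg_of_nonpos_of_nonpos (Mathlib.Tactic.Linarith.sub_nonpos_of_le a0) (Mathlib.Tactic.Linarith.sub_nonpos_of_le (abs_nonneg (p.ofLp (0 : Fin (2 : ℕ))))), mul_nonneg_of_nonpos_of_nonpos (Mathlib.Tactic.Linarith.sub_nonpos_of_le a0) (Mathlib.Tactic.Linarith.sub_nonpos_of_le (abs_nonneg (p.ofLp (1 : Fin (2 : ℕ))))), mul_nonneg_of_nonpos_of_nonpos (Mathlib.Tactic.Linarith.sub_nonpos_of_le a1) (Mathlib.Tactic.Linarith.sub_nonpos_of_le a1), mul_nonneg_of_nonpos_of_nonpos (Mathlib.Tactic.Linarith.sub_nonpos_of_le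 a1) (Mathlib.Tactic.Linarith.sub_nonpos_of_le (abs_nonneg (p.ofLp (0 : Fin (2 : ℕ))))), mul_nonneg_of_nonpos_of_nonpos (Mathlib.Tactic.Linarith.sub_nonpos_of_le a1) (Mathlib.Tactic.Linarith.sub_nonpos_of_le (abs_nonneg (p.ofLp (1 : Fin (2 : ℕ))))), mul_nonneg_of_nonpos_of_nonpos (Mathlib.Tactic.Linarith.sub_nonpos_of_le (abs_nonneg (p.ofLp (0 : Fin (2 : ℕ))))) (Mathlib.Tactic.Linarith.sub_nonpos_of_le (abs_nonneg (p.ofLp (1 : Fin (2 : ℕ)))))]

lemma Rect_union {a b c d : ℝ} (h1 : a ≤ b) (h2 : b ≤ c) :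
    Rect a b d ∪ Rect b c d = Rect a c d := by
  ext p
  simp only [Rect, mem_union, mem_ofPred_eq]
  constructor
  · rintro (⟨k1, k2, k3⟩ | ⟨k1, k2, k3⟩)
    · exact ⟨k1, k2.trans h2, k3⟩
    · exact ⟨h1.trans k1, k2, k3⟩
  · rintro ⟨k1, k2, k3⟩
    rcases le_total (p 0) b with h | h
    · exact Or.inl ⟨k1, h, k3⟩
    · exact Or.inr ⟨h, k2, k3⟩

lemma Rect_inter {a b c d : ℝ} (h1 : a ≤ b) (h2 : b ≤ c) :
    Rect a b d ∩ Rect b c d = Rect b b d := by
  ext p
  simp only [Rect, mem_inter_iff, mem_ofPred_eq]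
  constructor
  · rintro ⟨⟨_, k2, k3⟩, ⟨k4, _, _⟩⟩
    exact ⟨k4, k2, k3⟩
  · rintro ⟨k1, k2, k3⟩
    exact ⟨⟨h1.trans k1, k2, k3⟩, ⟨k1, k2.trans h2, k3⟩⟩

lemma smul_Rect {t : ℝ} (ht : 0 < t) (a b d : ℝ) :
    t • Rect a b d = Rect (t * a) (t * b) (t * d) := by
  ext p
  rw [mem_smul_set_iff_inv_smul_mem₀ ht.ne']
  simp only [Rect, mem_ofPred_eq, PiLp.smul_apply, smul_eq_mul]
  rw [le_inv_mul_iff₀ ht, inv_mul_le_iff₀ ht, le_inv_mul_iff₀ ht, inv_mul_le_iff₀ ht, mul_zero]

lemma magF_le {a s d : ℝ} (hs : 0 ≤ s) (hd : 0 ≤ d) {F : Finset Pl}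
    (hF : (↑F : Set Pl) ⊆ Rect a (a + s) d) : magF F ≤ NN s * NN d / (2 * π) := by
  have hpi := pi_pos
  refine sum_inv_le _ (div_nonneg (mul_nonneg (NN_nonneg _) (NN_nonneg _)) (by positivity))
    (fun w => ?_)
  have h := key_upper hs hd (fun j : ↥F => j.1 0 - a) (fun j : ↥F => j.1 1) w
    (fun j => ⟨by linarith [(hF j.2).1], by linarith [(hF j.2).2.1]⟩)
    (fun j => ⟨(hF j.2).2.2.1, (hF j.2).2.2.2⟩)
  convert h using 4 with j _ k _
  simp only [Matrix.of_apply, Zk, dist_pl, sub_sub_sub_cancel_right]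

lemma mag_le {a s d : ℝ} (hs : 0 ≤ s) (hd : 0 ≤ d) :
    mag (Rect a (a + s) d) ≤ NN s * NN d / (2 * π) := by
  have hpi := pi_pos
  have h0 : 0 ≤ NN s * NN d / (2 * π) :=
    div_nonneg (mul_nonneg (NN_nonneg _) (NN_nonneg _)) (by positivity)
  exact Real.iSup_le (fun F => Real.iSup_le (fun hF => magF_le hs hd hF) h0) h0

lemma magF_le_mag {a s d : ℝ} (hs : 0 ≤ s) (hd : 0 ≤ d) {F : Finset Pl}
    (hF : (↑F : Set Pl) ⊆ Rect a (a + s) d) : magF F ≤ mag (Rect a (a + s) d) := by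
  have hpi := pi_pos
  have h0 : 0 ≤ NN s * NN d / (2 * π) :=
    div_nonneg (mul_nonneg (NN_nonneg _) (NN_nonneg _)) (by positivity)
  refine le_ciSup_of_le ⟨NN s * NN d / (2 * π), ?_⟩ F (le_of_eq ?_)
  · rintro _ ⟨G, rfl⟩
    exact Real.iSup_le (fun hG => magF_le hs hd hG) h0
  · rw [ciSup_pos hF]

lemma card_div_le_magF (F : Finset Pl) {M : ℝ} (hM : 0 < M)
    (hrow : ∀ p ∈ F, ∑ q ∈ F, exp (-dist p q) ≤ M) : (F.card : ℝ) / M ≤ magF F := by
  have hZ : ∀ j k : ↥F, (Matrix.of (fun x y : ↥F => Real.exp (-dist x.1 y.1))) j k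
      = Zk (fun j : ↥F => j.1 0) (fun j : ↥F => j.1 1) j k := by
    intro j k
    simp only [Matrix.of_apply, Zk, dist_pl]
  have h := card_div_le_sum_inv (Matrix.of (fun x y : ↥F => Real.exp (-dist x.1 y.1)))
    (fun j k => by simp [dist_comm]) (fun w => by simp_rw [hZ]; exact quad_nonneg _ _ w)
    (fun w hw => by
      simp_rw [hZ] at hw
      refine quad_eq_zero _ _ w (fun j k h0 h1 => ?_) hw
      ext i
      fin_cases i
      · exact h0
      · exact h1) hM
    (fun j => by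
      simp only [Matrix.of_apply]
      rw [Finset.sum_coe_sort F (fun q => exp (-dist j.1 q))]
      exact hrow _ j.2)
  rw [Fintype.card_coe] at h
  exact h

lemma segment_lower {a d : ℝ} (hd : 0 < d) : d / 2 ≤ mag (Rect a a d) := by
  have key : ∀ N : ℕ, 0 < N → d / (d / N + 2) ≤ mag (Rect a a d) := by
    intro N hN
    have hN' : (0:ℝ) < N := by exact_mod_cast hN
    set δ := d / N with hδ
    have hδ0 : 0 < δ := by positivity
    set φ : ℕ → Pl := fun j => !₂[a, δ * j] with hφ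
    have hinj : Function.Injective φ := by
      intro j k h
      have := congrArg (fun p : Pl => p 1) h
      simp only [hφ] at this
      simpa [hδ0.ne'] using this
    have hsub : (↑((Finset.range N).image φ) : Set Pl) ⊆ Rect a (a + 0) d := by
      intro p hp
      simp only [Finset.coe_image, Finset.coe_range, mem_image, mem_Iio] at hp
      obtain ⟨j, hj, rfl⟩ := hp
      have hj' : (j:ℝ) ≤ N := by exact_mod_cast hj.le
      refine ⟨by simp [hφ], by simp [hφ], by simp [hφ]; positivity, ?_⟩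
      simp only [hφ]
      calc _ = δ * j := by simp
        _ ≤ δ * N := by gcongr
        _ = d := by rw [hδ]; field_simp
    have h1 := card_div_le_magF ((Finset.range N).image φ) (M := 1 + 2 / δ) (by positivity) (by
      intro p hp
      obtain ⟨j, hj, rfl⟩ := Finset.mem_image.1 hp
      rw [Finset.sum_image (fun _ _ _ _ h => hinj h)]
      refine le_trans (le_of_eq ?_) (sum_exp_le hδ0 (Finset.mem_range.1 hj))
      refine Finset.sum_congr rfl (fun k _ => ?_)
      simp [dist_pl, hφ, Real.sqrt_sq_eq_abs])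
    rw [Finset.card_image_of_injective _ hinj, Finset.card_range] at h1
    have h2 := magF_le_mag le_rfl hd.le hsub
    rw [add_zero] at h2
    refine le_trans (le_of_eq ?_) (h1.trans h2)
    rw [hδ]; field_simp
  have hlim : Tendsto (fun N : ℕ => d / (d / N + 2)) atTop (𝓝 (d / (0 + 2))) :=
    tendsto_const_nhds.div ((tendsto_const_div_atTop_nhds_zero_nat d).add tendsto_const_nhds)
      (by norm_num)
  rw [zero_add] at hlim
  exact le_of_tendsto hlim (eventually_atTop.2 ⟨1, fun N hN => key N hN⟩)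

lemma rect_lower {s d : ℝ} (hs : 0 < s) (hd : 0 < d) : s * d / (2 * π) ≤ mag (Rect 0 s d) := by
  set c := √(2 * π) with hc
  have hc0 : 0 < c := by have := pi_pos; positivity
  have hc2 : c * c = 2 * π := Real.mul_self_sqrt (by have := pi_pos; positivity)
  have key : ∀ N : ℕ, 0 < N → s * d / ((s / N + c) * (d / N + c)) ≤ mag (Rect 0 s d) := by
    intro N hN
    have hN' : (0:ℝ) < N := by exact_mod_cast hN
    set δ := s / N with hδ
    set ε := d / N with hε
    have hδ0 : 0 < δ := by positivity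
    have hε0 : 0 < ε := by positivity
    set φ : ℕ × ℕ → Pl := fun j => !₂[δ * j.1, ε * j.2] with hφ
    have hinj : Function.Injective φ := by
      intro j k h
      have h0 := congrArg (fun p : Pl => p 0) h
      have h1 := congrArg (fun p : Pl => p 1) h
      simp only [hφ] at h0 h1
      ext
      · simpa [hδ0.ne'] using h0
      · simpa [hε0.ne'] using h1
    have hsub : (↑((Finset.range N ×ˢ Finset.range N).image φ) : Set Pl) ⊆ Rect 0 (0 + s) d := by
      intro p hp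
      obtain ⟨j, hj, rfl⟩ := Finset.mem_image.1 (Finset.mem_coe.1 hp)
      rw [Finset.mem_product, Finset.mem_range, Finset.mem_range] at hj
      have hj1 : (j.1:ℝ) ≤ N := by exact_mod_cast hj.1.le
      have hj2 : (j.2:ℝ) ≤ N := by exact_mod_cast hj.2.le
      refine ⟨by simp [hφ]; positivity, ?_, by simp [hφ]; positivity, ?_⟩
      · simp only [hφ]
        calc _ = δ * j.1 := by simp
          _ ≤ δ * N := by gcongr
          _ = 0 + s := by rw [hδ]; field_simp; simp
      · simp only [hφ]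
        calc _ = ε * j.2 := by simp
          _ ≤ ε * N := by gcongr
          _ = d := by rw [hε]; field_simp
    have h1 := card_div_le_magF ((Finset.range N ×ˢ Finset.range N).image φ)
      (M := (1 + c / δ) * (1 + c / ε)) (by positivity) (by
      intro p hp
      obtain ⟨j, hj, rfl⟩ := Finset.mem_image.1 hp
      rw [Finset.mem_product, Finset.mem_range, Finset.mem_range] at hj
      rw [Finset.sum_image (fun _ _ _ _ h => hinj h), Finset.sum_product]
      refine le_trans (le_of_eq ?_) (sum_plane_le hδ0 hε0 hj.1 hj.2)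
      refine Finset.sum_congr rfl (fun k _ => Finset.sum_congr rfl (fun l _ => ?_))
      simp [dist_pl, hφ])
    rw [Finset.card_image_of_injective _ hinj, Finset.card_product, Finset.card_range] at h1
    have h2 := magF_le_mag hs.le hd.le hsub
    rw [zero_add] at h2
    refine le_trans (le_of_eq ?_) (h1.trans h2)
    rw [hδ, hε]; push_cast; field_simp
  have hlim : Tendsto (fun N : ℕ => s * d / ((s / N + c) * (d / N + c))) atTop
      (𝓝 (s * d / ((0 + c) * (0 + c)))) :=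
    tendsto_const_nhds.div (((tendsto_const_div_atTop_nhds_zero_nat s).add tendsto_const_nhds).mul
      ((tendsto_const_div_atTop_nhds_zero_nat d).add tendsto_const_nhds)) (by positivity)
  rw [zero_add, hc2] at hlim
  exact le_of_tendsto hlim (eventually_atTop.2 ⟨1, fun N hN => key N hN⟩)

/-- Asymptotic inclusion-exclusion fails for planar rectangles. -/
theorem not_incl_excl : ¬ (∀ A B : Set Pl,
    IsCompact A → IsCompact B → Convex ℝ A → Convex ℝ B → Convex ℝ (A ∪ B) →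
    Tendsto (fun t : ℝ => mag (t • (A ∪ B)) + mag (t • (A ∩ B)) - mag (t • A) - mag (t • B))
      atTop (𝓝 0)) := by
  intro h
  set D : ℕ → ℝ → ℝ := fun i t => mag (Rect 0 (t * (i + 1)) (t * 1000))
    + mag (Rect (t * i) (t * i) (t * 1000)) - mag (Rect 0 (t * i) (t * 1000))
    - mag (Rect (t * i) (t * i + t) (t * 1000)) with hD
  have hDt : ∀ i : ℕ, Tendsto (D i) atTop (𝓝 0) := by
    intro i
    have hi : (0:ℝ) ≤ i := Nat.cast_nonneg i
    have hi1 : (i:ℝ) ≤ i + 1 := by linarith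
    have := h (Rect 0 i 1000) (Rect i (i + 1) 1000) (isCompact_Rect _ _ _) (isCompact_Rect _ _ _)
      (convex_Rect _ _ _) (convex_Rect _ _ _) (by rw [Rect_union hi hi1]; exact convex_Rect _ _ _)
    rw [Rect_union hi hi1, Rect_inter hi hi1] at this
    refine this.congr' ?_
    filter_upwards [eventually_gt_atTop 0] with t ht
    simp only [hD, smul_Rect ht, mul_zero, mul_add, mul_one]
  have hsum : ∀ m : ℕ, Tendsto (fun t => ∑ i ∈ Finset.range m, D i t) atTop (𝓝 0) := by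
    intro m
    simpa using tendsto_finsetSum (Finset.range m) (fun i _ => hDt i)
  have hev' : ∀ m : ℕ, ∀ᶠ t in atTop, ∑ i ∈ Finset.range m, D i t < 1 :=
    fun m => (hsum m).eventually (gt_mem_nhds one_pos)
  have hev := hev' (999 + 1)
  have hN2 : ∀ᶠ t in atTop, NN (t * 1000) ≤ t * 1000 + 313 / 100 :=
    (tendsto_id.atTop_mul_const (by norm_num : (0:ℝ) < 1000)).eventually NN_le
  obtain ⟨t, h1, h2, h3, ht⟩ := (hev.and (NN_le.and (hN2.and (eventually_ge_atTop 1000)))).exists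
  have ht0 : 0 < t := by linarith only [ht]
  have hpi := pi_pos
  set U := (t + 313 / 100) * (t * 1000 + 313 / 100) / (2 * π) with hU
  have hcol : ∀ i : ℕ, mag (Rect (t * i) (t * i + t) (t * 1000)) ≤ U := by
    intro i
    refine (mag_le ht0.le (by positivity)).trans ?_
    rw [hU]
    gcongr
    exact NN_nonneg _
  have hseg : ∀ i : ℕ, t * 1000 / 2 ≤ mag (Rect (t * i) (t * i) (t * 1000)) :=
    fun i => segment_lower (by positivity)
  have hind : ∀ m : ℕ, mag (Rect 0 (t * (m + 1)) (t * 1000)) + m * (t * 1000 / 2) - (m + 1) * U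
      ≤ ∑ i ∈ Finset.range (m + 1), D i t := by
    intro m
    induction m with
    | zero =>
      have := hcol 0
      simp only [hD, Finset.range_one, Finset.sum_singleton, Nat.cast_zero, zero_add, mul_zero,
        mul_one] at this ⊢
      linarith only [this]
    | succ m ih =>
      rw [Finset.sum_range_succ]
      have k1 := hcol (m + 1)
      have k2 := hseg (m + 1)
      simp only [hD] at ih ⊢
      push_cast at ih k1 k2 ⊢
      linarith only [ih, k1, k2]
  have h4 := hind 999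
  have h5 := rect_lower (s := t * ((999 : ℕ) + 1)) (d := t * 1000) (by positivity) (by positivity)
  have h6 : t * ((999 : ℕ) + 1) * (t * 1000) / (2 * π) + (999 : ℕ) * (t * 1000 / 2)
      - ((999 : ℕ) + 1) * U < 1 := by
    have h8 := h4.trans_lt h1
    clear h4 h1
    linarith only [h5, h8]
  have hp := Real.pi_gt_d2
  rw [hU] at h6
  push_cast at h6
  have h7 : t * (999 + 1) * (t * 1000) / (2 * π) + 999 * (t * 1000 / 2)
      - (999 + 1) * ((t + 313 / 100) * (t * 1000 + 313 / 100) / (2 * π))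
      = (999000 * π * t - 3133130 * t - 97969 / 10) / (2 * π) := by
    field_simp; ring
  rw [h7, div_lt_one (by positivity)] at h6
  linarith only [h6, hp, ht, hpi, mul_nonneg_of_nonpos_of_nonpos (Mathlib.Tactic.Linarith.sub_nonpos_of_le (mul_self_nonneg (t * (1000 : ℝ)))) (le_of_lt (Mathlib.Tactic.Linarith.sub_neg_of_lt hp)), mul_nonneg_of_nonpos_of_nonpos (Mathlib.Tactic.Linarith.sub_nonpos_of_le ht) (Mathlib.Tactic.Linarith.sub_nonpos_of_le ht), mul_nonneg_of_nonpos_of_nonpos (Mathlib.Tactic.Linarith.sub_nonpos_of_le ht) (le_of_lt (Mathlib.Tactic.Linarith.sub_neg_of_lt hpi)), mul_nonneg_of_nonpos_of_nonpos (Mathlib.Tactic.Linarith.sub_nonpos_of_le ht) (le_of_lt (Mathlib.Tactic.Linarith.sub_neg_of_lt h6))]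

end Pool.Agent.Work.MP_6e5b56_gt
end
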