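import Mathlib

/-! Gaussian subordination for `exp (-r)` and the Fourier representation of `exp (-|x|)` in the plane. -/

set_option autoImplicit false

open MeasureTheory Set Filter Real

namespace Pool.Agent.Work.MP_6e5b56_gt

lemma image_sub_div {r : ℝ} (hr : 0 < r) : (fun v : ℝ => v - r / v) '' Ioi 0 = univ := by
  apply eq_univ_of_forall
  intro y
  have hs : 0 < y ^ 2 + 4 * r := by positivity
  have h1 : |y| < √(y ^ 2 + 4 * r) := by
    apply Real.lt_sqrt_of_sq_lt
    rw [sq_abs]; linarith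
  have h2 : 0 < (y + √(y ^ 2 + 4 * r)) / 2 := by
    have := neg_abs_le y
    linarith
  refine ⟨(y + √(y ^ 2 + 4 * r)) / 2, h2, ?_⟩
  have h3 : √(y ^ 2 + 4 * r) ^ 2 = y ^ 2 + 4 * r := Real.sq_sqrt hs.le
  have h4 : y + √(y ^ 2 + 4 * r) ≠ 0 := by linarith
  simp only
  field_simp
  nlinarith

lemma image_div {r : ℝ} (hr : 0 < r) : (fun v : ℝ => r / v) '' Ioi 0 = Ioi 0 := by
  ext y
  constructor
  · rintro ⟨v, hv, rfl⟩
    exact div_pos hr hv
  · intro hy
    refine ⟨r / y, div_pos hr hy, ?_⟩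
    have : y ≠ 0 := ne_of_gt hy
    simp only
    field_simp

lemma gauss_sub_div {r : ℝ} (hr : 0 < r) :
    ∫ v in Ioi (0 : ℝ), exp (-(1 / 2) * (v - r / v) ^ 2) = √(2 * π) / 2 := by
  set F : ℝ → ℝ := fun y => exp (-(1 / 2) * y ^ 2) with hF
  have hFint : Integrable F := integrable_exp_neg_mul_sq (by norm_num)
  have hFval : ∫ y, F y = √(2 * π) := by
    rw [hF, integral_gaussian]; congr 1; ring
  have hd1 : ∀ v ∈ Ioi (0 : ℝ), HasDerivWithinAt (fun v : ℝ => v - r / v) (1 + r / v ^ 2) (Ioi 0) v := by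
    intro v hv
    have hv0 : v ≠ 0 := ne_of_gt hv
    have := (hasDerivAt_id v).sub ((hasDerivAt_const v r).div (hasDerivAt_id v) hv0)
    apply HasDerivAt.hasDerivWithinAt
    convert this using 1
    · ext; simp
    · simp; ring
  have hinj1 : InjOn (fun v : ℝ => v - r / v) (Ioi 0) := by
    apply StrictMonoOn.injOn
    intro a ha b hb hab
    have : r / b < r / a := div_lt_div_of_pos_left hr ha hab
    simp only
    linarith
  have hd2 : ∀ v ∈ Ioi (0 : ℝ), HasDerivWithinAt (fun v : ℝ => r / v) (-(r / v ^ 2)) (Ioi 0) v := by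
    intro v hv
    have hv0 : v ≠ 0 := ne_of_gt hv
    have : HasDerivAt (fun v : ℝ => r / v) ((0 * v - r * 1) / v ^ 2) v :=
      (hasDerivAt_const v r).div (hasDerivAt_id v) hv0
    apply HasDerivAt.hasDerivWithinAt
    exact this.congr_deriv (by ring)
  have hinj2 : InjOn (fun v : ℝ => r / v) (Ioi 0) := by
    apply StrictAntiOn.injOn
    intro a ha b hb hab
    exact div_lt_div_of_pos_left hr ha hab
  have e1 := integral_image_eq_integral_abs_deriv_smul measurableSet_Ioi hd1 hinj1 F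
  have i1 := (integrableOn_image_iff_integrableOn_abs_deriv_smul measurableSet_Ioi hd1 hinj1 F).1
    hFint.integrableOn
  rw [image_sub_div hr, Measure.restrict_univ, hFval] at e1
  have e2 := integral_image_eq_integral_abs_deriv_smul measurableSet_Ioi hd2 hinj2
    (fun v => F (v - r / v))
  rw [image_div hr] at e2
  have e2' : ∫ v in Ioi (0 : ℝ), F (v - r / v) = ∫ v in Ioi (0 : ℝ), r / v ^ 2 * F (v - r / v) := by
    rw [e2]
    refine setIntegral_congr_fun measurableSet_Ioi (fun v hv => ?_)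
    have hv0 : v ≠ 0 := ne_of_gt hv
    have hpos : 0 < r / v ^ 2 := by have : (0:ℝ) < v := hv; positivity
    simp only [smul_eq_mul, abs_neg, abs_of_pos hpos, hF]
    congr 2
    field_simp
    ring
  have hmeas : AEStronglyMeasurable (fun v : ℝ => F (v - r / v)) (volume.restrict (Ioi 0)) := by
    apply Measurable.aestronglyMeasurable
    simp only [hF]
    fun_prop
  have i0 : IntegrableOn (fun v : ℝ => F (v - r / v)) (Ioi 0) := by
    refine Integrable.mono i1 hmeas ?_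
    filter_upwards [ae_restrict_mem measurableSet_Ioi] with v hv
    have hpos : 0 < r / v ^ 2 := by have : (0:ℝ) < v := hv; positivity
    have hF0 : 0 ≤ F (v - r / v) := (exp_pos _).le
    rw [norm_smul, Real.norm_eq_abs, Real.norm_eq_abs, abs_abs, abs_of_nonneg hF0,
      abs_of_pos (by linarith)]
    nlinarith
  have i2 : IntegrableOn (fun v : ℝ => r / v ^ 2 * F (v - r / v)) (Ioi 0) := by
    refine (i1.sub i0).congr ?_
    filter_upwards [ae_restrict_mem measurableSet_Ioi] with v hv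
    have hpos : 0 < r / v ^ 2 := by have : (0:ℝ) < v := hv; positivity
    simp only [Pi.sub_apply, smul_eq_mul]
    rw [abs_of_pos (by linarith)]
    ring
  have e3 : ∫ v in Ioi (0 : ℝ), |1 + r / v ^ 2| • F (v - r / v)
      = (∫ v in Ioi (0 : ℝ), F (v - r / v)) + ∫ v in Ioi (0 : ℝ), r / v ^ 2 * F (v - r / v) := by
    rw [← integral_add i0 i2]
    refine setIntegral_congr_fun measurableSet_Ioi (fun v hv => ?_)
    have hpos : 0 < r / v ^ 2 := by have : (0:ℝ) < v := hv; positivity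
    simp only [smul_eq_mul]
    rw [abs_of_pos (by linarith)]
    ring
  rw [e3, ← e2'] at e1
  change ∫ v in Ioi (0 : ℝ), F (v - r / v) = _
  linarith

/-- Subordination formula. -/
lemma subord {r : ℝ} (hr : 0 ≤ r) :
    ∫ v in Ioi (0 : ℝ), exp (-(1 / 2) * v ^ 2) * exp (-(r ^ 2 / (2 * v ^ 2)))
      = √(2 * π) / 2 * exp (-r) := by
  rcases hr.eq_or_lt with rfl | hr
  · simp only [ne_eq, OfNat.ofNat_ne_zero, not_false_eq_true, zero_pow, zero_div, neg_zero,
      exp_zero, mul_one]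
    rw [integral_gaussian_Ioi]; congr 2; ring
  · rw [← gauss_sub_div hr, ← integral_mul_const]
    refine setIntegral_congr_fun measurableSet_Ioi (fun v hv => ?_)
    have hv0 : v ≠ 0 := ne_of_gt hv
    simp only [← exp_add]
    congr 1
    field_simp
    ring

lemma integral_sq_gauss {A : ℝ} (hA : 0 < A) :
    ∫ v in Ioi (0 : ℝ), v ^ 2 * exp (-(A / 2) * v ^ 2) = √(2 * π) / 2 / (A * √A) := by
  have h := integral_rpow_mul_exp_neg_mul_rpow (p := 2) (q := 2) (b := A / 2) (by norm_num)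
    (by norm_num) (by positivity)
  have hG : Real.Gamma ((2 + 1) / 2) = √π / 2 := by
    have : ((2:ℝ) + 1) / 2 = 1 / 2 + 1 := by norm_num
    rw [this, Real.Gamma_add_one (by norm_num), Real.Gamma_one_half_eq]; ring
  rw [hG] at h
  have h' : ∫ v in Ioi (0 : ℝ), v ^ 2 * exp (-(A / 2) * v ^ 2)
      = ∫ x in Ioi (0:ℝ), x ^ (2:ℝ) * exp (-(A / 2) * x ^ (2:ℝ)) := by
    simp only [Real.rpow_two]
  rw [h', h]
  have hA2 : 0 < A / 2 := by positivity
  have e : (A / 2) ^ (-((2:ℝ) + 1) / 2) = 1 / ((A / 2) * √(A / 2)) := by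
    have : -((2:ℝ) + 1) / 2 = -(1 + 1 / 2) := by norm_num
    rw [this, Real.rpow_neg hA2.le, Real.rpow_add hA2, Real.rpow_one, Real.sqrt_eq_rpow]
    simp only [one_div]
  rw [e, Real.sqrt_div hA.le, Real.sqrt_mul (by norm_num : (0:ℝ) ≤ 2)]
  have h2 : (0:ℝ) < √2 := by positivity
  have h3 : (0:ℝ) < √A := by positivity
  field_simp

/-- One-dimensional Gaussian Fourier transform. -/
lemma gauss_ft {v : ℝ} (hv : 0 < v) (x : ℝ) :
    ∫ ξ : ℝ, Complex.exp (Complex.I * x * ξ) * (exp (-(v ^ 2 / 2) * ξ ^ 2) : ℝ)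
      = ((√(2 * π) / v * exp (-(x ^ 2 / (2 * v ^ 2))) : ℝ) : ℂ) := by
  have hb : 0 < ((v ^ 2 / 2 : ℝ) : ℂ).re := by simp only [Complex.ofReal_re]; positivity
  have h := fourierIntegral_gaussian hb x
  have h1 : ∀ ξ : ℝ, ((exp (-(v ^ 2 / 2) * ξ ^ 2) : ℝ) : ℂ)
      = Complex.exp (-((v ^ 2 / 2 : ℝ) : ℂ) * (ξ : ℂ) ^ 2) := by
    intro ξ; push_cast; rfl
  simp_rw [h1]
  rw [h]
  have h2 : ((π : ℂ) / ((v ^ 2 / 2 : ℝ) : ℂ)) ^ (1 / 2 : ℂ) = ((√(2 * π) / v : ℝ) : ℂ) := by
    have e : (π : ℂ) / ((v ^ 2 / 2 : ℝ) : ℂ) = ((π / (v ^ 2 / 2) : ℝ) : ℂ) := by push_cast; rfl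
    have e2 : (1 / 2 : ℂ) = ((1 / 2 : ℝ) : ℂ) := by push_cast; rfl
    rw [e, e2, ← Complex.ofReal_cpow (by positivity), ← Real.sqrt_eq_rpow]
    congr 1
    have : π / (v ^ 2 / 2) = (2 * π) / v ^ 2 := by field_simp
    rw [this, Real.sqrt_div (by positivity), Real.sqrt_sq hv.le]
  rw [h2]
  push_cast
  congr 2
  have : (v : ℂ) ≠ 0 := by exact_mod_cast hv.ne'
  field_simp
  ring

/-- The planar weight `(1+|p|²)^{-3/2}`. -/
noncomputable def K (p : ℝ × ℝ) : ℝ :=
  1 / ((1 + p.1 ^ 2 + p.2 ^ 2) * √(1 + p.1 ^ 2 + p.2 ^ 2))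

lemma K_pos (p : ℝ × ℝ) : 0 < K p := by unfold K; positivity

lemma continuous_K : Continuous K := by
  unfold K
  refine continuous_const.div (by fun_prop) (fun p => by positivity)

/-- The integrand on `(0,∞) × ℝ²`. -/
noncomputable def T (q : ℝ × (ℝ × ℝ)) : ℝ :=
  q.1 ^ 2 * exp (-((1 + q.2.1 ^ 2 + q.2.2 ^ 2) / 2) * q.1 ^ 2)

lemma T_eq (v : ℝ) (p : ℝ × ℝ) : T (v, p) = v ^ 2 * exp (-(1 / 2) * v ^ 2) *
    (exp (-(v ^ 2 / 2) * p.1 ^ 2) * exp (-(v ^ 2 / 2) * p.2 ^ 2)) := by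
  simp only [T, mul_assoc, ← exp_add]
  congr 2
  ring

lemma continuous_T : Continuous T := by unfold T; fun_prop

lemma integrable_T : Integrable T ((volume.restrict (Ioi (0:ℝ))).prod volume) := by
  rw [integrable_prod_iff continuous_T.aestronglyMeasurable]
  constructor
  · filter_upwards [ae_restrict_mem measurableSet_Ioi] with v hv
    have hv' : (0:ℝ) < v := hv
    simp_rw [T_eq]
    apply Integrable.const_mul
    exact (integrable_exp_neg_mul_sq (b := v ^ 2 / 2) (by positivity)).mul_prod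
      (integrable_exp_neg_mul_sq (b := v ^ 2 / 2) (by positivity))
  · have : IntegrableOn (fun v : ℝ => 2 * π * exp (-(1 / 2) * v ^ 2)) (Ioi 0) :=
      ((integrable_exp_neg_mul_sq (b := 1 / 2) (by norm_num)).const_mul _).integrableOn
    refine this.congr ?_
    filter_upwards [ae_restrict_mem measurableSet_Ioi] with v hv
    have hv' : (0:ℝ) < v := hv
    have hn : ∀ p : ℝ × ℝ, ‖T (v, p)‖ = T (v, p) := fun p => by
      rw [Real.norm_eq_abs, abs_of_nonneg]; unfold T; positivity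
    simp_rw [hn, T_eq]
    rw [integral_const_mul, Measure.volume_eq_prod,
      integral_prod_mul (fun x : ℝ => exp (-(v ^ 2 / 2) * x ^ 2))
        (fun x : ℝ => exp (-(v ^ 2 / 2) * x ^ 2)), integral_gaussian,
      Real.mul_self_sqrt (by positivity)]
    field_simp

lemma integral_T_left (p : ℝ × ℝ) : ∫ v in Ioi (0:ℝ), T (v, p) = √(2 * π) / 2 * K p := by
  unfold T K
  simp only
  rw [integral_sq_gauss (by positivity)]
  ring

lemma integrable_K : Integrable K := by
  have h := integrable_T.integral_prod_right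
  simp_rw [integral_T_left] at h
  have hc : √(2 * π) / 2 ≠ 0 := by have := pi_pos; positivity
  exact (integrable_const_mul_iff (IsUnit.mk0 _ hc) _).1 h

/-- Fourier representation of the planar kernel. -/
lemma kernel_rep (x y : ℝ) :
    ∫ p : ℝ × ℝ, Complex.exp (Complex.I * x * p.1) * Complex.exp (Complex.I * y * p.2) * (K p : ℂ)
      = ((2 * π * exp (-√(x ^ 2 + y ^ 2)) : ℝ) : ℂ) := by
  set e : ℝ × ℝ → ℂ := fun p => Complex.exp (Complex.I * x * p.1) * Complex.exp (Complex.I * y * p.2)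
    with he
  have he1 : ∀ p, ‖e p‖ = 1 := by
    intro p
    simp only [he, norm_mul]
    have h1 : Complex.I * x * p.1 = ((x * p.1 : ℝ) : ℂ) * Complex.I := by push_cast; ring
    have h2 : Complex.I * y * p.2 = ((y * p.2 : ℝ) : ℂ) * Complex.I := by push_cast; ring
    rw [h1, h2, Complex.norm_exp_ofReal_mul_I, Complex.norm_exp_ofReal_mul_I, one_mul]
  have hec : Continuous e := by simp only [he]; fun_prop
  have hint : Integrable (Function.uncurry fun (v : ℝ) (p : ℝ × ℝ) => e p * (T (v, p) : ℂ))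
      ((volume.restrict (Ioi (0:ℝ))).prod volume) := by
    refine Integrable.mono (integrable_T) ?_ ?_
    · apply Continuous.aestronglyMeasurable
      exact (hec.comp continuous_snd).mul (Complex.continuous_ofReal.comp continuous_T)
    · refine Eventually.of_forall (fun q => ?_)
      simp [Function.uncurry, he1]
  have hsw := integral_integral_swap hint
  have hc : ((√(2 * π) / 2 : ℝ) : ℂ) ≠ 0 := by
    have := pi_pos
    exact_mod_cast (by positivity : √(2 * π) / 2 ≠ 0)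
  have hR : ∫ p : ℝ × ℝ, ∫ v in Ioi (0:ℝ), e p * (T (v, p) : ℂ)
      = ((√(2 * π) / 2 : ℝ) : ℂ) * ∫ p : ℝ × ℝ, e p * (K p : ℂ) := by
    rw [← integral_const_mul]
    congr 1
    ext p
    rw [integral_const_mul, integral_complex_ofReal, integral_T_left]
    push_cast
    ring
  have hL : ∫ v in Ioi (0:ℝ), ∫ p : ℝ × ℝ, e p * (T (v, p) : ℂ)
      = ((√(2 * π) / 2 : ℝ) : ℂ) * ((2 * π * exp (-√(x ^ 2 + y ^ 2)) : ℝ) : ℂ) := by
    have hs := subord (Real.sqrt_nonneg (x ^ 2 + y ^ 2))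
    rw [Real.sq_sqrt (by positivity)] at hs
    have : ((√(2 * π) / 2 : ℝ) : ℂ) * ((2 * π * exp (-√(x ^ 2 + y ^ 2)) : ℝ) : ℂ)
        = ((2 * π * (√(2 * π) / 2 * exp (-√(x ^ 2 + y ^ 2))) : ℝ) : ℂ) := by push_cast; ring
    rw [this, ← hs, ← integral_const_mul, ← integral_complex_ofReal]
    refine setIntegral_congr_fun measurableSet_Ioi (fun v hv => ?_)
    have hv' : (0:ℝ) < v := hv
    have h1 : ∀ p : ℝ × ℝ, e p * (T (v, p) : ℂ) = ((v ^ 2 * exp (-(1 / 2) * v ^ 2) : ℝ) : ℂ) *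
        ((Complex.exp (Complex.I * x * p.1) * (exp (-(v ^ 2 / 2) * p.1 ^ 2) : ℝ)) *
          (Complex.exp (Complex.I * y * p.2) * (exp (-(v ^ 2 / 2) * p.2 ^ 2) : ℝ))) := by
      intro p
      rw [T_eq, he]
      push_cast
      ring
    simp_rw [h1]
    rw [integral_const_mul, Measure.volume_eq_prod,
      integral_prod_mul
        (fun ξ : ℝ => Complex.exp (Complex.I * x * ξ) * (exp (-(v ^ 2 / 2) * ξ ^ 2) : ℝ))
        (fun ξ : ℝ => Complex.exp (Complex.I * y * ξ) * (exp (-(v ^ 2 / 2) * ξ ^ 2) : ℝ)),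
      gauss_ft hv', gauss_ft hv', ← Complex.ofReal_mul, ← Complex.ofReal_mul]
    have h3 : exp (-((x ^ 2 + y ^ 2) / (2 * v ^ 2)))
        = exp (-(x ^ 2 / (2 * v ^ 2))) * exp (-(y ^ 2 / (2 * v ^ 2))) := by
      rw [← exp_add]; congr 1; ring
    have h4 : √(2 * π) * √(2 * π) = 2 * π := Real.mul_self_sqrt (by positivity)
    rw [h3]
    congr 1
    field_simp
    rw [sq, h4]
  rw [hL, hR] at hsw
  exact (mul_left_cancel₀ hc hsw).symm

end Pool.Agent.Work.MP_6e5b56_gt
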